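import Pool.Agent.MP_5a4599_gt.Proper

namespace Pool.Agent.MP_5a4599_gt

open Set Ordinal

/-- The final forcing notion. -/
def PP : Type 1 := {p : Pre // ∀ α, V α p}

instance : Preorder PP where
  le q p := ∀ α, L α q.1 p.1
  le_refl _ _ := L.rfl
  le_trans _ _ _ h h' α := (h α).trans (h' α)

noncomputable instance : OrderTop PP where
  top := ⟨top, V_top⟩
  le_top p α := L_top α p.1

theorem PP.le_of {α : K} {q p : PP} (h : L α q.1 p.1) (hp : supp p.1 ⊆ Iio α) : q ≤ p :=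
  fun _ => L_of_supp h fun _ hx => hp hx.1

theorem PP.amalg {α : K} {r : Pre} (s : PP) (hr : V α r) (hrs : L α r s.1) :
    ∃ t : PP, t ≤ s ∧ L α t.1 r ∧ Agr α t.1 s.1 := by
  obtain ⟨t, h₁, h₂, h₃, h₄⟩ := exists_amalg hr hrs
  exact ⟨⟨t, fun β => h₄ β (s.2 β)⟩, h₃, L_of_agr h₁, h₂ α le_rfl⟩

theorem exists_long_closure (F : K → K) (α₀ : K) : ∃ α : K, α₀ ≤ α ∧
    ∀ c : Set K, c.Countable → c ⊆ Iio α → ∃ β, α₀ ≤ β ∧ β ≤ α ∧ F β ≤ α ∧ c ⊆ Iio β := by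
  let G : K → K := fun β => max (F (max β α₀)) (max β α₀)
  let a : K → K := (wellFounded_lt (α := K)).fix fun ξ ih => ⨆ η : Iio ξ, G (ih η.1 η.2)
  have ha : ∀ ξ, a ξ = ⨆ η : Iio ξ, G (a η.1) := fun ξ => by
    conv_lhs => simp only [a]; rw [WellFounded.fix_eq]
  have hle : ∀ η ξ, η < ξ → G (a η) ≤ a ξ := fun η ξ h => by
    rw [ha ξ]
    exact le_ciSup (f := fun η : Iio ξ => G (a η.1)) Ordinal.bddAbove_of_small ⟨η, h⟩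
  have hG : ∀ β, max β α₀ ≤ G β := fun β => le_max_right _ _
  refine ⟨a ω₁, ((le_max_right _ _).trans (hG _)).trans (hle 0 _ (omega_pos 1)), fun c hc hcα => ?_⟩
  have : ∀ β ∈ c, ∃ η : W, β < G (a η.1) := by
    intro β hβ
    have h : β < a ω₁ := hcα hβ
    rw [ha] at h
    have : Nonempty (Iio (ω₁ : K)) := ⟨w0⟩
    exact (lt_ciSup_iff Ordinal.bddAbove_of_small).1 h
  have _ : Nonempty W := ⟨w0⟩
  choose! f hf using this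
  obtain ⟨b, hb⟩ := W.exists_gt (hc.image f)
  refine ⟨max (a b.1) α₀, le_max_right _ _, (hG _).trans (hle _ _ b.2),
    (le_max_left _ _).trans (hle _ _ b.2), fun β hβ => ?_⟩
  exact lt_max_of_lt_left ((hf β hβ).trans_le (hle _ _ (hb _ ⟨β, hβ, rfl⟩)))

theorem capture {ι : Type 1} [Small.{0} ι] (p₀ : PP) (D : ι → PP → Prop)
    (hD : ∀ i q, q ≤ p₀ → ∃ r ≤ q, D i r) :
    ∃ α, supp p₀.1 ⊆ Iio α ∧ ∀ i q, V α q → L α q p₀.1 →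
      ∃ r : PP, D i r ∧ supp r.1 ⊆ Iio α ∧ L α r.1 q := by
  have key : ∀ β, ∃ b, ∀ i, ∀ s : PP, s.1 ∈ S β → s ≤ p₀ →
      ∃ r ≤ s, D i r ∧ supp r.1 ⊆ Iio b := by
    intro β
    have := small_S β
    have h : ∀ x : ι × S β, ∃ b, ∀ s : PP, s.1 = x.2.1 → s ≤ p₀ →
        ∃ r ≤ s, D x.1 r ∧ supp r.1 ⊆ Iio b := by
      rintro ⟨i, s, hs⟩
      by_cases h : ∃ s' : PP, s'.1 = s ∧ s' ≤ p₀
      · obtain ⟨s', rfl, h⟩ := h
        obtain ⟨r, hr, hd⟩ := hD i s' h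
        obtain ⟨b, hb⟩ := exists_bound r.1
        exact ⟨b, fun t ht _ => ⟨r, (Subtype.ext ht : t = s') ▸ hr, hd, hb⟩⟩
      · exact ⟨0, fun t ht h' => absurd ⟨t, ht, h'⟩ h⟩
    choose f hf using h
    obtain ⟨b, hb⟩ : BddAbove (range f) := Ordinal.bddAbove_of_small
    refine ⟨b, fun i s hs hsp => ?_⟩
    obtain ⟨r, h₁, h₂, h₃⟩ := hf (i, ⟨s.1, hs⟩) s rfl hsp
    exact ⟨r, h₁, h₂, h₃.trans (Iio_subset_Iio (hb ⟨_, rfl⟩))⟩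
  choose F hF using key
  obtain ⟨α₀, h₀⟩ := exists_bound p₀.1
  obtain ⟨α, hα, H⟩ := exists_long_closure F α₀
  refine ⟨α, h₀.trans (Iio_subset_Iio hα), fun i q hq hqp => ?_⟩
  obtain ⟨β, h₁, h₂, h₃, h₄⟩ := H _ (V_iff.1 hq).1 inter_subset_right
  obtain ⟨s, hs, hsq, hss⟩ := exists_nf β q
  let s' : PP := ⟨s, fun _ => V_of_supp ((hq.mono h₂).of_agr hsq) hss⟩
  obtain ⟨r, h₅, h₆, h₇⟩ := hF β i s' hs
    (PP.le_of ((L_of_agr hsq).trans (hqp.mono h₂)) (h₀.trans (Iio_subset_Iio h₁)))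
  exact ⟨r, h₆, h₇.trans (Iio_subset_Iio h₃), (h₅ α).trans (L_of_supp (L_of_agr hsq) h₄)⟩

theorem PP.proper (p₀ : PP) (E : ℕ → PP → W → Prop)
    (hm : ∀ n r r' ξ, E n r ξ → r' ≤ r → E n r' ξ)
    (hE : ∀ n q, q ≤ p₀ → ∃ r ≤ q, ∃ ξ, E n r ξ) :
    ∃ q ≤ p₀, ∃ δ : W, ∀ n, ∀ s ≤ q, ∃ s' ≤ s, ∃ ξ < δ, E n s' ξ := by
  obtain ⟨α, hα, H⟩ := capture (ι := ULift ℕ) p₀ (fun n r => ∃ ξ, E n.down r ξ)
    fun n q hq => hE n.down q hq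
  obtain ⟨q, δ, hq, hqp, h⟩ := Pool.Agent.MP_5a4599_gt.proper (p₀.2 α)
    (fun n r v => Inc α r p₀.1 ∨ ∃ r' : PP, E n r' v.2 ∧ supp r'.1 ⊆ Iio α ∧ L α r r'.1) (by
      intro n
      constructor
      · rintro r r' v (h | ⟨t, h₁, h₂, h₃⟩) _ hl
        exacts [Or.inl (h.mono hl), Or.inr ⟨t, h₁, h₂, hl.trans h₃⟩]
      · intro r hr
        by_cases h : Inc α r p₀.1
        · exact ⟨r, hr, L.rfl, (r, w0), Or.inl h⟩
        · obtain ⟨s, hs, h₁, h₂⟩ := not_not.1 h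
          obtain ⟨t, ⟨ξ, h₃⟩, h₄, h₅⟩ := H ⟨n⟩ s hs h₂
          exact ⟨t.1, t.2 α, h₅.trans h₁, (r, ξ), Or.inr ⟨t, h₃, h₄, L.rfl⟩⟩)
  obtain ⟨q', -, h₁, h₂⟩ := exists_nf α q
  refine ⟨⟨q', fun _ => V_of_supp (hq.of_agr h₁) h₂⟩, PP.le_of ((L_of_agr h₁).trans hqp) hα, δ,
    fun n s hs => ?_⟩
  have hsq : L α s.1 q := (hs α).trans (L_of_agr h₁)
  obtain ⟨s₁, h₃, h₄, v, hv, h₅ | ⟨r', h₅, h₆, h₇⟩⟩ := h n s.1 (s.2 α) hsq
  · exact absurd ⟨s₁, h₃, L.rfl, h₄.trans (hsq.trans hqp)⟩ h₅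
  · obtain ⟨t, h₈, h₉, -⟩ := s.amalg h₃ h₄
    exact ⟨t, h₈, v.2, hv, hm _ _ _ _ h₅ (PP.le_of (h₉.trans h₇) h₆)⟩

/-- `u` forces the atom `a` into the generic object at position `α`. -/
def DD (α : K) (u : PP) (a : Atom) : Prop := Dec α u.1 u.1 a

theorem dd_of_dec {α : K} {u t : PP} {a : Atom} (h : Dec α t.1 u.1 a) (hu : u ≤ t) : DD α u a :=
  (hu (Order.succ α)).dec (Order.lt_succ α) (u.2 α) L.rfl h

theorem DD.mono {α : K} {u u' : PP} {a : Atom} (h : DD α u a) (hu : u' ≤ u) : DD α u' a :=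
  dd_of_dec (Dec.mono h (hu α)) hu

theorem PP.good (u : PP) (α : K) : Good α u.1 := (u.2 (Order.succ α)).good (Order.lt_succ α)

theorem DD.con {α : K} {u : PP} {a b : Atom} (h : DD α u a) (h' : DD α u b) : Con a b :=
  (Good_def.1 (u.good α) u.1 (u.2 α) L.rfl).1 a b h h'

theorem add_atoms {α : K} (q : PP) {r : Pre} (hr : V α r) (hrq : L α r q.1)
    (Ψ : Pre → Atom → Prop) (hΨ : ∀ x x' a, Ψ x a → V α x' → L α x' x → Ψ x' a)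
    (c₁ : ∀ z a b, V α z → L α z r → Ψ z a → Dec α q.1 z b → Con a b)
    (c₂ : ∀ z a b, V α z → L α z r → Ψ z a → Ψ z b → Con a b)
    (c₃ : ∀ k z, V α z → L α z r → ∃ z', V α z' ∧ L α z' z ∧ ∃ T : Set Atom, T.Finite ∧
      ∀ y, V α y → L α y z' → ∀ a, cl a = k → Ψ y a → a ∈ T) :
    ∃ t ≤ q, L α t.1 r ∧ ∀ x a, V α x → Ψ x a → Dec α t.1 x a := by
  obtain ⟨t, h₁, h₂, h₃⟩ := exists_modify α r q.1 (fun x a => Dec α q.1 x a ∨ Ψ x a) (by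
    rintro x x' a (h | h) hx hl
    exacts [Or.inl (h.mono hl), Or.inr (hΨ _ _ _ h hx hl)])
  have htr : L α t r := L_of_agr h₁
  have hsub : ∀ x a, V α x → L α x r → Dec α q.1 x a → Dec α t x a := fun x a hx _ h =>
    (h₂ x a hx).2 (Dns.of_all fun y _ hy => Or.inl (h.mono hy))
  have hg : Good α t := by
    rw [Good_def]
    intro x hx hxt
    have hxr : L α x r := hxt.trans htr
    constructor
    · intro a b ha hb
      obtain ⟨y, hy, hyx, ha'⟩ := (h₂ x a hx).1 ha x hx L.rfl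
      obtain ⟨z, hz, hzy, hb'⟩ := (h₂ x b hx).1 hb y hy hyx
      have hzr : L α z r := hzy.trans (hyx.trans hxr)
      rcases ha' with ha' | ha' <;> rcases hb' with hb' | hb'
      · exact (Good_def.1 (q.good α) z hz (hzr.trans hrq)).1 a b (ha'.mono hzy) hb'
      · exact (c₁ z b a hz hzr hb' (ha'.mono hzy)).symm
      · exact c₁ z a b hz hzr (hΨ _ _ _ ha' hz hzy) hb'
      · exact c₂ z a b hz hzr (hΨ _ _ _ ha' hz hzy) hb'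
    · intro k
      obtain ⟨y, hy, hyx, T, hT, H⟩ := (Good_def.1 (q.good α) x hx (hxr.trans hrq)).2 k
      obtain ⟨z, hz, hzy, T', hT', H'⟩ := c₃ k y hy (hyx.trans hxr)
      refine ⟨z, hz, hzy.trans hyx, T ∪ T', hT.union hT', fun x' hx' hl a hk ha => ?_⟩
      obtain ⟨y', hy', hl', h | h⟩ := (h₂ x' a hx').1 ha x' hx' L.rfl
      · exact Or.inl (H y' hy' (hl'.trans (hl.trans hzy)) a hk h)
      · exact Or.inr (H' y' hy' (hl'.trans hl) a hk h)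
  exact ⟨⟨t, fun β => modify_valid hr (q.2 β) hrq h₁ hsub h₃ fun _ => hg⟩,
    fun β => modify_le hrq h₁ hsub h₃, htr,
    fun x a hx h => (h₂ x a hx).2 (Dns.of_all fun y hy hl => Or.inr (hΨ _ _ _ h hy hl))⟩

theorem Con.rfl {a : Atom} : Con a a := by
  cases a <;> simp [Con]

theorem add_atom {α : K} (q : PP) {r : Pre} (hr : V α r) (hrq : L α r q.1) (a : Atom)
    (c : ∀ z b, V α z → L α z r → Dec α q.1 z b → Con a b) :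
    ∃ t ≤ q, L α t.1 r ∧ DD α t a := by
  obtain ⟨t, h₁, h₂, h₃⟩ := add_atoms q hr hrq (fun _ b => b = a) (fun _ _ _ h _ _ => h)
    (fun z _ b hz hl h h' => h ▸ c z b hz hl h') (fun _ _ _ _ _ h h' => h ▸ h' ▸ Con.rfl)
    (fun k z hz _ => ⟨z, hz, L.rfl, {a}, finite_singleton a, fun _ _ _ _ _ h => h⟩)
  exact ⟨t, h₁, h₂, h₃ _ _ (t.2 α) rfl⟩

theorem pt_dense (α : K) (x : W) (q : PP) : ∃ t ≤ q, ∃ d, x < d ∧ DD α t (.pt d) := by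
  obtain ⟨r, hr, hl, hfin, H⟩ := exists_decide (q.good α) (q.2 α) L.rfl
  obtain ⟨ξ, hξ⟩ := exists_low (hfin.insert (.pt x)).countable
  obtain ⟨t, h₁, -, h₂⟩ := add_atom q hr hl (.pt ξ) fun z b hz hzr h => con_pt_of_low (by
    by_cases h0 : cl b = 0
    · exact hξ b (Or.inr ⟨h0, H z hz hzr b h0 h⟩)
    · cases b <;> simp_all [cl, Low])
  exact ⟨t, h₁, ξ, hξ _ (Or.inl rfl), h₂⟩

theorem eq_dense (α : K) (n : ℕ) (q : PP) : ∃ t ≤ q, ∃ m, DD α t (.eq n m) := by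
  obtain ⟨r, hr, hl, -, H⟩ := exists_decide (q.good α) (q.2 α) L.rfl
  by_cases h : ∃ m, Dec α q.1 r (.eq n m)
  · obtain ⟨m, hm⟩ := h
    obtain ⟨t, h₁, h₂, -⟩ := q.amalg hr hl
    exact ⟨t, h₁, m, dd_of_dec (hm.mono h₂) h₁⟩
  · obtain ⟨r', hr', hl', T, hT, H'⟩ := (Good_def.1 (q.good α) r hr hl).2 (n + 1)
    obtain ⟨m, hm⟩ : BddAbove ((Atom.ge n) ⁻¹' T) :=
      (hT.preimage fun _ _ _ _ h => (Atom.ge.inj h).2).bddAbove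
    obtain ⟨t, h₁, -, h₂⟩ := add_atom q hr' (hl'.trans hl) (.eq n m) fun z b hz hzr hb => by
      cases b with
      | eq n' m' =>
        rintro rfl
        exact absurd ⟨m', H z hz (hzr.trans hl') _ rfl hb⟩ h
      | ge n' m' =>
        rintro rfl
        exact hm (H' z hz hzr _ rfl hb)
      | _ => trivial
    exact ⟨t, h₁, m, h₂⟩

theorem gap_dense (p₀ : PP) (R : W → ℕ → W → W → PP → Prop)
    (hm : ∀ x n a b r r', R x n a b r → r' ≤ r → R x n a b r')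
    (hR : ∀ x N, ∀ s : Set W, s.Finite → ∀ q ≤ p₀, ∃ r ≤ q, ∃ n, N ≤ n ∧ ∃ a b, R x n a b r ∧
      ∀ d ∈ s, ¬ (a < d ∧ d ≤ b)) :
    ∃ α, ∀ x N, ∀ q ≤ p₀, ∃ t ≤ q, ∃ n, N ≤ n ∧ ∃ a b, R x n a b t ∧ DD α t (.gap a b) := by
  obtain ⟨α, -, H⟩ := capture (ι := W × ℕ × List W) p₀
    (fun i r => ∃ n, i.2.1 ≤ n ∧ ∃ a b, R i.1 n a b r ∧ ∀ d ∈ i.2.2, ¬ (a < d ∧ d ≤ b))
    fun i q hq => hR i.1 i.2.1 {d | d ∈ i.2.2} (List.finite_toSet _) q hq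
  refine ⟨α, fun x N q hq => ?_⟩
  obtain ⟨r, hr, hl, hfin, hd⟩ := exists_decide (q.good α) (q.2 α) L.rfl
  have hs : (Atom.pt ⁻¹' {a | cl a = 0 ∧ Dec α q.1 r a}).Finite :=
    hfin.preimage fun _ _ _ _ h => Atom.pt.inj h
  obtain ⟨r', ⟨n, hn, a, b, h₁, h₂⟩, h₃, h₄⟩ := H (x, N, hs.toFinset.toList) r hr (hl.trans (hq α))
  obtain ⟨t, h₅, h₆, h₇⟩ := add_atom q (r'.2 α) (h₄.trans hl) (.gap a b) fun z c hz hzr hc => by
    cases c with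
    | pt d =>
      refine h₂ d ?_
      simp only [Finset.mem_toList, Finite.mem_toFinset]
      exact ⟨rfl, hd z hz (hzr.trans h₄) _ rfl hc⟩
    | _ => trivial
  exact ⟨t, h₅, n, hn, a, b, hm _ _ _ _ _ _ h₁ (PP.le_of h₆ h₃), h₇⟩

theorem dom_dense (p₀ : PP) (R : W → ℕ → ℕ → PP → Prop)
    (hm : ∀ x n m r r', R x n m r → r' ≤ r → R x n m r')
    (hR : ∀ x n, ∀ q ≤ p₀, ∃ r ≤ q, ∃ m, R x n m r)
    (hu : ∀ x n m m', ∀ r ≤ p₀, R x n m r → R x n m' r → m = m') :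
    ∃ α, ∀ x, ∀ q ≤ p₀, ∃ t ≤ q, ∃ N, ∀ n, N ≤ n → ∀ m m', ∀ u ≤ t, R x n m u →
      DD α u (.eq n m') → m ≤ m' := by
  obtain ⟨α, -, H⟩ := capture (ι := W × ℕ) p₀ (fun i r => ∃ m, R i.1 i.2 m r)
    fun i q hq => hR i.1 i.2 q hq
  refine ⟨α, fun x q hq => ?_⟩
  obtain ⟨r, hr, hl, hfin, hd⟩ := exists_decide (q.good α) (q.2 α) L.rfl
  obtain ⟨N, hN⟩ : BddAbove ((fun a => match a with | Atom.eq n _ => n | _ => 0) ''
      {a | cl a = 0 ∧ Dec α q.1 r a}) := (hfin.image _).bddAbove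
  let Θ : ℕ → Pre → ℕ → Prop := fun n z m => ∃ y : PP, R x n m y ∧ supp y.1 ⊆ Iio α ∧ L α z y.1
  have hΘ : ∀ n z z' m, Θ n z m → V α z' → L α z' z → Θ n z' m :=
    fun n z z' m ⟨y, h₁, h₂, h₃⟩ _ hl => ⟨y, h₁, h₂, hl.trans h₃⟩
  have ex : ∀ n z, V α z → L α z p₀.1 → ∃ z' m, V α z' ∧ L α z' z ∧ First α (Θ n) z' m := by
    intro n z hz hzp
    obtain ⟨y, ⟨m, h₁⟩, h₂, h₃⟩ := H (x, n) z hz hzp
    exact First.ex ⟨m, y.1, y.2 α, h₃, y, h₁, h₂, L.rfl⟩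
  obtain ⟨t, h₁, -, h₃⟩ := add_atoms q hr hl
    (fun z a => ∃ n m, a = .ge n m ∧ N < n ∧ First α (Θ n) z m)
    (fun z z' a ⟨n, m, h₁, h₂, h₃⟩ hz hl => ⟨n, m, h₁, h₂, h₃.mono (hΘ n) hz hl⟩)
    (by
      rintro z a b hz hzr ⟨n, m, rfl, h₂, -⟩ hb
      cases b with
      | eq n' m' =>
        rintro rfl
        exact absurd (hN ⟨_, ⟨rfl, hd z hz hzr _ rfl hb⟩, rfl⟩) (not_le.2 h₂)
      | _ => trivial)
    (by
      rintro z a b _ _ ⟨n, m, rfl, -⟩ ⟨n', m', rfl, -⟩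
      trivial)
    (by
      intro k z hz hzr
      obtain ⟨z', m, h₁, h₂, h₃⟩ := ex (k - 1) z hz (hzr.trans (hl.trans (hq α)))
      refine ⟨z', h₁, h₂, {.ge (k - 1) m}, finite_singleton _, ?_⟩
      rintro y hy hyz a hk ⟨n, m', rfl, -, h⟩
      obtain rfl : n + 1 = k := hk
      rw [First.uniq hy h (h₃.mono (hΘ _) hy hyz)]
      rfl)
  refine ⟨t, h₁, N + 1, fun n hn m m' u hut hR' hD => ?_⟩
  obtain ⟨z, m₁, h₄, h₅, h₆⟩ := ex n u.1 (u.2 α) ((hut.trans (h₁.trans hq)) α)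
  obtain ⟨u', h₇, h₈, -⟩ := u.amalg h₄ h₅
  have h₉ := h₆.mono (hΘ n) (u'.2 α) h₈
  obtain ⟨y, y₁, y₂, y₃⟩ := h₉.1
  obtain rfl : m₁ = m := hu x n _ _ u' (h₇.trans (hut.trans (h₁.trans hq)))
    (hm _ _ _ _ _ y₁ (PP.le_of y₃ y₂)) (hm _ _ _ _ _ hR' h₇)
  have := dd_of_dec (h₃ u'.1 _ (u'.2 α) ⟨n, m₁, rfl, hn, h₉⟩) (h₇.trans hut)
  exact (hD.mono h₇).con this rfl

end Pool.Agent.MP_5a4599_gt
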