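import Pool.Agent.MP_5a4599_gt.Iter

namespace Pool.Agent.MP_5a4599_gt

open Set Ordinal

theorem W.countable_Iic (x : W) : (Iic x).Countable := by
  have h : (Iic x.1).Countable := by
    rw [← Cardinal.le_aleph0_iff_set_countable, ← Order.Iio_succ, Cardinal.mk_Iio_ordinal]
    have : (Order.succ x.1).card ≤ Cardinal.aleph0 := by
      have h₁ : Order.succ x.1 < ω₁ := (Cardinal.isSuccLimit_omega 1).succ_lt x.2
      rw [Cardinal.lt_omega_iff_card_lt, ← Cardinal.succ_aleph0, Order.lt_succ_iff] at h₁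
      exact h₁
    simpa using Cardinal.lift_le.{1}.2 this
  exact (h.preimage Subtype.val_injective).mono fun y hy => hy

theorem W.exists_gt {s : Set W} (hs : s.Countable) : ∃ b : W, ∀ x ∈ s, x < b := by
  have := hs.to_subtype
  have h : ⨆ x : s, Order.succ x.1.1 < ω₁ :=
    Ordinal.iSup_lt_omega_one fun x => (Cardinal.isSuccLimit_omega 1).succ_lt x.1.2
  refine ⟨⟨_, h⟩, fun x hx => ?_⟩
  have : Order.succ x.1 ≤ ⨆ x : s, Order.succ x.1.1 :=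
    le_ciSup (f := fun x : s => Order.succ x.1.1) Ordinal.bddAbove_of_small ⟨x, hx⟩
  exact (Order.succ_le_iff.1 this : x.1 < _)

def Low (δ : W) : Atom → Prop
  | .pt d => d < δ
  | .gap a b => a < δ ∧ b < δ
  | _ => True

theorem Low.mono {δ δ' : W} {a : Atom} (h : Low δ a) (h' : δ ≤ δ') : Low δ' a := by
  cases a with
  | pt d => exact lt_of_lt_of_le h h'
  | gap a b => exact ⟨lt_of_lt_of_le h.1 h', lt_of_lt_of_le h.2 h'⟩
  | eq n m => trivial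
  | ge n m => trivial

theorem countable_low (δ : W) : {a | Low δ a}.Countable := by
  have h := (W.countable_Iic δ).mono Iio_subset_Iic_self
  refine ((((h.image Atom.pt).union ((h.prod h).image fun x => Atom.gap x.1 x.2)).union
    (countable_range fun x : ℕ × ℕ => Atom.eq x.1 x.2)).union
    (countable_range fun x : ℕ × ℕ => Atom.ge x.1 x.2)).mono ?_
  rintro (d | ⟨a, b⟩ | ⟨n, m⟩ | ⟨n, m⟩) ha
  exacts [Or.inl (Or.inl (Or.inl ⟨d, ha, rfl⟩)), Or.inl (Or.inl (Or.inr ⟨(a, b), ha, rfl⟩)),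
    Or.inl (Or.inr ⟨(n, m), rfl⟩), Or.inr ⟨(n, m), rfl⟩]

theorem exists_low_one (a : Atom) : ∃ ξ, Low ξ a := by
  cases a with
  | pt d =>
    obtain ⟨b, hb⟩ := W.exists_gt (countable_singleton d)
    exact ⟨b, hb d rfl⟩
  | gap a c =>
    obtain ⟨b, hb⟩ := W.exists_gt (toFinite {a, c}).countable
    exact ⟨b, hb a (by simp), hb c (by simp)⟩
  | eq n m => exact ⟨⟨0, omega_pos 1⟩, trivial⟩
  | ge n m => exact ⟨⟨0, omega_pos 1⟩, trivial⟩

theorem exists_low {T : Set Atom} (hT : T.Countable) : ∃ ξ, ∀ a ∈ T, Low ξ a := by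
  choose f hf using exists_low_one
  obtain ⟨b, hb⟩ := W.exists_gt (hT.image f)
  exact ⟨b, fun a ha => (hf a).mono (hb _ ⟨a, ha, rfl⟩).le⟩

theorem exists_low_lt {δ : W} (h0 : ∃ x, x < δ) (hδ : ∀ x < δ, ∃ y < δ, x < y) {T : Set Atom}
    (hT : T.Finite) (h : ∀ a ∈ T, Low δ a) : ∃ ξ < δ, ∀ a ∈ T, Low ξ a := by
  induction T, hT using Finite.induction_on with
  | empty => obtain ⟨x, hx⟩ := h0; exact ⟨x, hx, by simp⟩
  | @insert a T _ _ ih =>
    obtain ⟨ξ, hξ, H⟩ := ih fun b hb => h b (mem_insert_of_mem _ hb)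
    have : ∃ η < δ, Low η a := by
      have ha := h a (mem_insert _ _)
      cases a with
      | pt d => exact hδ d ha
      | gap a c =>
        obtain ⟨y, hy, h'⟩ := hδ (max a c) (max_lt ha.1 ha.2)
        exact ⟨y, hy, (le_max_left _ _).trans_lt h', (le_max_right _ _).trans_lt h'⟩
      | eq n m => exact ⟨ξ, hξ, trivial⟩
      | ge n m => exact ⟨ξ, hξ, trivial⟩
    obtain ⟨η, hη, hl⟩ := this
    refine ⟨max ξ η, max_lt hξ hη, ?_⟩
    rintro b (rfl | hb)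
    exacts [hl.mono (le_max_right _ _), (H b hb).mono (le_max_left _ _)]

abbrev Task : Type 1 := Pre → Pre × W → Prop

/-- Dense tasks. -/
def DT (α : K) (D : Task) : Prop :=
  (∀ r r' v, D r v → V α r' → L α r' r → D r' v) ∧
    ∀ p, V α p → ∃ r, V α r ∧ L α r p ∧ ∃ v, D r v

def Inc (γ : K) (r p : Pre) : Prop := ¬ ∃ s, V γ s ∧ L γ s r ∧ L γ s p

theorem Inc.mono {γ : K} {r r' p : Pre} (h : Inc γ r p) (hl : L γ r' r) : Inc γ r' p :=
  fun ⟨s, h₁, h₂, h₃⟩ => h ⟨s, h₁, h₂.trans hl, h₃⟩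

def T1 (γ : K) (p : Pre) : Task := fun r v =>
  Inc γ r p ∨ ∀ s, V γ s → L γ s r → ∀ a, cl a = 0 → Dec γ p s a → Low v.2 a

def T2 (γ α : K) (p : Pre) (D : Task) : Task := fun r v =>
  Inc γ r p ∨ (V α v.1 ∧ L α v.1 p ∧ (∃ w, D v.1 w) ∧ L γ r v.1)

def Pi3 (γ : K) (D : Task) (u : Set Atom) (r p : Pre) : Prop :=
  V (Order.succ γ) p ∧ (∃ w, D p w) ∧ L γ r p ∧ (∀ a ∈ u, Dec γ p r a) ∧
    ∀ s, V γ s → L γ s r → ∀ n m, Dec γ p s (.eq n m) → .eq n m ∈ u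

def T3 (γ : K) (D : Task) (u : Set Atom) : Task := fun r v =>
  Pi3 γ D u r v.1 ∨ ¬ ∃ s p, V γ s ∧ L γ s r ∧ Pi3 γ D u s p

def w0 : W := ⟨0, omega_pos 1⟩

theorem dt_T1 {γ : K} {p : Pre} (hp : Good γ p) : DT γ (T1 γ p) := by
  constructor
  · rintro r r' v (h | h) _ hl
    · exact Or.inl (h.mono hl)
    · exact Or.inr fun s hs hsr => h s hs (hsr.trans hl)
  · intro r hr
    by_cases h : Inc γ r p
    · exact ⟨r, hr, L.rfl, (p, w0), Or.inl h⟩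
    · obtain ⟨s, hs, h₁, h₂⟩ := not_not.1 h
      obtain ⟨t, ht, hts, T, hT, H⟩ := (Good_def.1 hp s hs h₂).2 0
      obtain ⟨ξ, hξ⟩ := exists_low hT.countable
      exact ⟨t, ht, hts.trans h₁, (p, ξ), Or.inr fun x hx hxt a ha h => hξ a (H x hx hxt a ha h)⟩

theorem dt_T2 {γ α : K} (hγ : γ ≤ α) {p : Pre} (hp : V α p) {D : Task} (hD : DT α D) :
    DT γ (T2 γ α p D) := by
  constructor
  · rintro r r' v (h | h) _ hl
    · exact Or.inl (h.mono hl)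
    · exact Or.inr ⟨h.1, h.2.1, h.2.2.1, hl.trans h.2.2.2⟩
  · intro r hr
    by_cases h : Inc γ r p
    · exact ⟨r, hr, L.rfl, (p, w0), Or.inl h⟩
    · obtain ⟨s, hs, h₁, h₂⟩ := not_not.1 h
      obtain ⟨t, ht₁, -, ht₃, ht₄⟩ := exists_amalg hs h₂
      obtain ⟨p', hp', hl, v, hv⟩ := hD.2 t (ht₄ α hp)
      exact ⟨p', hp'.mono hγ, ((hl.mono hγ).trans (L_of_agr ht₁)).trans h₁, (p', w0),
        Or.inr ⟨hp', hl.trans (ht₃ α), ⟨v, hv⟩, L.rfl⟩⟩

theorem Pi3.mono {γ : K} {D : Task} {u : Set Atom} {r r' p : Pre} (h : Pi3 γ D u r p)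
    (hl : L γ r' r) : Pi3 γ D u r' p :=
  ⟨h.1, h.2.1, hl.trans h.2.2.1, fun a ha => (h.2.2.2.1 a ha).mono hl,
    fun s hs hsr => h.2.2.2.2 s hs (hsr.trans hl)⟩

theorem dt_T3 (γ : K) (D : Task) (u : Set Atom) : DT γ (T3 γ D u) := by
  constructor
  · rintro r r' v (h | h) _ hl
    · exact Or.inl (h.mono hl)
    · exact Or.inr fun ⟨s, p, h₁, h₂, h₃⟩ => h ⟨s, p, h₁, h₂.trans hl, h₃⟩
  · intro r hr
    by_cases h : ∃ s p, V γ s ∧ L γ s r ∧ Pi3 γ D u s p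
    · obtain ⟨s, p, h₁, h₂, h₃⟩ := h
      exact ⟨s, h₁, h₂, (p, w0), Or.inl h₃⟩
    · exact ⟨r, hr, L.rfl, (r, w0), Or.inr h⟩

/-- A countable system closed under the operations used in the iteration lemma. -/
structure Clo where
  NK : Set K
  NP : Set Pre
  NT : Set Task
  δ : W
  cK : NK.Countable
  cP : NP.Countable
  cT : NT.Countable
  zero : 0 ∈ NK
  top : top ∈ NP
  succ : ∀ γ ∈ NK, Order.succ γ ∈ NK
  pred : ∀ γ, Order.succ γ ∈ NK → γ ∈ NK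
  supp : ∀ α ∈ NK, ∀ p ∈ NP, V α p → supp p ∩ Iio α ⊆ NK
  t1 : ∀ γ ∈ NK, ∀ p ∈ NP, T1 γ p ∈ NT
  t2 : ∀ γ ∈ NK, ∀ α ∈ NK, ∀ p ∈ NP, ∀ D ∈ NT, T2 γ α p D ∈ NT
  t3 : ∀ γ ∈ NK, ∀ D ∈ NT, ∀ u : Set Atom, u.Finite → (∀ a ∈ u, Low δ a) → T3 γ D u ∈ NT
  wit : ∀ D ∈ NT, ∀ p ∈ NP, (∃ v, D p v) → ∃ v, v.1 ∈ NP ∧ v.2 < δ ∧ D p v

theorem exists_closure {X : Type*} (F : X → X → X → X → Set X)
    (hF : ∀ a b c d, (F a b c d).Countable) {S₀ : Set X} (h₀ : S₀.Countable) :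
    ∃ N : Set X, N.Countable ∧ S₀ ⊆ N ∧
      ∀ a ∈ N, ∀ b ∈ N, ∀ c ∈ N, ∀ d ∈ N, F a b c d ⊆ N := by
  let A : ℕ → Set X := fun n => Nat.rec S₀
    (fun _ s => s ∪ ⋃ a ∈ s, ⋃ b ∈ s, ⋃ c ∈ s, ⋃ d ∈ s, F a b c d) n
  have hA : ∀ n, A (n + 1) = A n ∪ ⋃ a ∈ A n, ⋃ b ∈ A n, ⋃ c ∈ A n, ⋃ d ∈ A n, F a b c d :=
    fun n => rfl
  have hc : ∀ n, (A n).Countable := by
    intro n
    induction n with
    | zero => exact h₀
    | succ n ih =>
      rw [hA]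
      exact ih.union (ih.biUnion fun a _ => ih.biUnion fun b _ => ih.biUnion fun c _ =>
        ih.biUnion fun d _ => hF a b c d)
  have hm : Monotone A := monotone_nat_of_le_succ fun n => by rw [hA]; exact subset_union_left
  refine ⟨⋃ n, A n, countable_iUnion hc, subset_iUnion A 0, ?_⟩
  simp only [mem_iUnion]
  rintro a ⟨i, ha⟩ b ⟨j, hb⟩ c ⟨k, hc⟩ d ⟨l, hd⟩ x hx
  let n := max (max i j) (max k l)
  refine mem_iUnion.2 ⟨n + 1, ?_⟩
  rw [hA]
  right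
  simp only [mem_iUnion]
  exact ⟨a, hm (by omega) ha, b, hm (by omega) hb, c, hm (by omega) hc, d, hm (by omega) hd, hx⟩

inductive Ob : Type 1
  | k (x : K) : Ob
  | p (x : Pre) : Ob
  | w (x : W) : Ob
  | t (x : Task) : Ob

def Ob.gk : Ob → K
  | .k x => x
  | _ => 0

noncomputable def Ob.gp : Ob → Pre
  | .p x => x
  | _ => top

def Ob.gw : Ob → W
  | .w x => x
  | _ => w0

def Ob.gt : Ob → Task
  | .t x => x
  | _ => fun _ _ => False

open Classical in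
noncomputable def witn (D : Task) (p : Pre) : Pre × W :=
  if h : ∃ v, D p v then h.choose else (p, w0)

open Classical in
noncomputable def csupp (α : K) (p : Pre) : Set K :=
  if (supp p ∩ Iio α).Countable then supp p ∩ Iio α else ∅

noncomputable def nxt (x : W) : W := (W.exists_gt (countable_singleton x)).choose

theorem lt_nxt (x : W) : x < nxt x := (W.exists_gt (countable_singleton x)).choose_spec x rfl

noncomputable def ops (a b c d : Ob) : Set Ob :=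
  {.k (Order.succ a.gk), .k (Ordinal.pred a.gk), .t (T1 a.gk b.gp), .t (T2 a.gk b.gk c.gp d.gt),
      .p (witn a.gt b.gp).1, .w (witn a.gt b.gp).2} ∪ Ob.k '' csupp a.gk b.gp ∪
    Ob.w '' Iic (nxt a.gw) ∪
    (fun u => Ob.t (T3 a.gk b.gt u)) '' {u | u.Finite ∧ u ⊆ {x | Low c.gw x}}

theorem countable_ops (a b c d : Ob) : (ops a b c d).Countable := by
  refine (((toFinite _).countable.union (Countable.image ?_ _)).union
    ((W.countable_Iic _).image _)).union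
    ((countable_ofPred_finite_subset (countable_low _)).image _)
  unfold csupp
  split_ifs with h
  exacts [h, countable_empty]

theorem exists_clo (α : K) (p : Pre) (D : ℕ → Task) :
    ∃ N : Clo, α ∈ N.NK ∧ p ∈ N.NP ∧ ∀ n, D n ∈ N.NT := by
  obtain ⟨N, hN, h₀, H⟩ := exists_closure ops countable_ops
    (S₀ := {.k 0, .k α, .p p, .p top, .w w0} ∪ range fun n => Ob.t (D n))
    ((toFinite _).countable.union (countable_range _))
  have cW : (Ob.w ⁻¹' N).Countable := hN.preimage fun _ _ h => Ob.w.inj h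
  obtain ⟨b, hb⟩ := W.exists_gt cW
  obtain ⟨δ, hδ, hmin⟩ := (wellFounded_lt (α := W)).has_min {x | Ob.w x ∉ N}
    ⟨b, fun h => lt_irrefl _ (hb b h)⟩
  have hw : ∀ x, Ob.w x ∈ N → ∀ y ≤ nxt x, Ob.w y ∈ N := fun x hx y hy =>
    H _ hx _ hx _ hx _ hx (Or.inl (Or.inr ⟨y, hy, rfl⟩))
  have key : ∀ x, Ob.w x ∈ N ↔ x < δ := by
    intro x
    constructor
    · intro hx
      by_contra h
      exact hδ (hw x hx δ ((not_lt.1 h).trans (lt_nxt x).le))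
    · intro hx
      by_contra h
      exact hmin x h hx
  have z : Ob.k 0 ∈ N := h₀ (by simp)
  refine ⟨⟨Ob.k ⁻¹' N, Ob.p ⁻¹' N, Ob.t ⁻¹' N, δ, hN.preimage fun _ _ h => Ob.k.inj h,
    hN.preimage fun _ _ h => Ob.p.inj h, hN.preimage fun _ _ h => Ob.t.inj h, z, h₀ (by simp),
    ?_, ?_, ?_, ?_, ?_, ?_, ?_⟩, h₀ (by simp), h₀ (by simp), fun n => h₀ (Or.inr ⟨n, rfl⟩)⟩
  · intro γ hγ
    exact H _ hγ _ z _ z _ z (Or.inl (Or.inl (Or.inl (Or.inl rfl))))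
  · intro γ hγ
    have := H _ hγ _ z _ z _ z (Or.inl (Or.inl (Or.inl (Or.inr (Or.inl rfl)))))
    simpa [Ob.gk] using this
  · intro α hα p hp hV β hβ
    refine H _ hα _ hp _ z _ z (Or.inl (Or.inl (Or.inr ⟨β, ?_, rfl⟩)))
    change β ∈ csupp α p
    unfold csupp
    rwa [if_pos (V_iff.1 hV).1]
  · intro γ hγ p hp
    exact H _ hγ _ hp _ z _ z (Or.inl (Or.inl (Or.inl (Or.inr (Or.inr (Or.inl rfl))))))
  · intro γ hγ α hα p hp D hD
    exact H _ hγ _ hα _ hp _ hD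
      (Or.inl (Or.inl (Or.inl (Or.inr (Or.inr (Or.inr (Or.inl rfl)))))))
  · intro γ hγ D hD u hu hl
    obtain ⟨ξ, hξ, h⟩ := exists_low_lt ⟨w0, (key _).1 (h₀ (by simp))⟩
      (fun x hx => ⟨nxt x, (key _).1 (hw x ((key x).2 hx) _ le_rfl), lt_nxt x⟩) hu hl
    exact H _ hγ _ hD _ ((key ξ).2 hξ) _ z (Or.inr ⟨u, ⟨hu, h⟩, rfl⟩)
  · intro D hD p hp h
    refine ⟨witn D p, H _ hD _ hp _ z _ z (Or.inl (Or.inl (Or.inl
      (Or.inr (Or.inr (Or.inr (Or.inr (Or.inl rfl)))))))), (key _).1 (H _ hD _ hp _ z _ z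
      (Or.inl (Or.inl (Or.inl (Or.inr (Or.inr (Or.inr (Or.inr (Or.inr rfl))))))))), ?_⟩
    unfold witn
    rw [dif_pos h]
    exact h.choose_spec

end Pool.Agent.MP_5a4599_gt
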