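import Pool.Agent.MP_5a4599_gt.Defs

namespace Pool.Agent.MP_5a4599_gt

open Pool.Agent.MP_c6cf52_lc

universe u

variable {M : Type u} (E : M → M → Prop)

/-- `F (x, n) = m`. -/
def App2 (F x n m : M) : Prop := ∃ p, IsPair E p x n ∧ App E F p m

/-- `F` is (on `a × b`) a total single-valued relation with values in `c`. -/
def Tot2 (F a b c : M) : Prop :=
  ∀ x n, E x a → E n b → ∃ m, E m c ∧ App2 E F x n m ∧ ∀ m', App2 E F x n m' → m' = m

/-- The bounding number is larger than `w1`. -/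
def PrB (om w1 : M) : Prop :=
  ∀ F, Tot2 E F w1 om om → ∃ d, IsFun E d om om ∧ ∀ x, E x w1 → ∃ N, E N om ∧
    ∀ n m m', E n om → ¬ E n N → App2 E F x n m → App E d n m' → ¬ E m' m

/-- Clubs with gaps. -/
def PrStar (om w1 : M) : Prop :=
  ∀ A B, Tot2 E A w1 om w1 → Tot2 E B w1 om w1 →
    (∀ x n a b, E x w1 → E n om → App2 E A x n a → App2 E B x n b → ¬ E b a ∧ ¬ E x b) →
    (∀ x n, E x w1 → E n om → ∃ N, E N om ∧ ∀ n' a b, E n' om → ¬ E n' N →
      App2 E A x n' a → App2 E B x n b → ¬ E a b) →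
    ∃ C, (∀ c, E c C → E c w1) ∧ (∀ a, E a w1 → ∃ c, E c C ∧ E a c) ∧
      (∀ d, E d w1 → (∃ a, E a d) → (∀ a, E a d → ∃ c, E c C ∧ E a c ∧ E c d) → E d C) ∧
      ∀ x N, E x w1 → E N om → ∃ n, E n om ∧ ¬ E n N ∧
        ∀ a b c, App2 E A x n a → App2 E B x n b → E c C → E a c → E b c

end Pool.Agent.MP_5a4599_gt
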