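import Pool.Agent.MP_c6cf52_lc.Omega1
import Pool.Agent.MP_5a4599_gt.Princ

namespace Pool.Agent.MP_5a4599_gt

open Pool.Agent.MP_c6cf52_lc Gen Cd W1

universe u

variable {P : Type u} [Preorder P] [OrderTop P] {g : Gen P} {W : W1 g}

theorem app2_iff {F x n m : g.M} : App2 g.E F x n m ↔ App g.E F (pr x n) m := by
  simp [App2, isPair_iff]

theorem exists_tot2 {β : Type*} [Cd g β] {c : g.M} (hc : ∀ b : β, g.E (ι b) c)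
    {f : W.T → ℕ → β} (hf : g.Tm (fun z : W.T × ℕ => f z.1 z.2)) :
    ∃ F, Tot2 g.E F W.w g.om c ∧
      ∀ (x : W.T) (n : ℕ) m, App2 g.E F (ι x) (g.nat n) m ↔ m = ι (f x n) := by
  obtain ⟨F, -, hF⟩ := exists_graph Df.true hf
  have e : ∀ (x : W.T) (n : ℕ) m, App2 g.E F (ι x) (g.nat n) m ↔ m = ι (f x n) := by
    intro x n m
    rw [app2_iff, hF]
    constructor
    · rintro ⟨⟨y, k⟩, -, e, rfl⟩
      obtain ⟨e₁, e₂⟩ := pr_inj.1 e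
      rw [inj e₁, nat_inj e₂]
    · rintro rfl
      exact ⟨(x, n), trivial, rfl, rfl⟩
  refine ⟨F, fun x n hx hn => ?_, e⟩
  obtain ⟨x, rfl⟩ := exists_T hx
  obtain ⟨n, rfl⟩ := E_om.1 hn
  exact ⟨_, hc _, (e _ _ _).2 rfl, fun m' h => (e _ _ _).1 h⟩

/-- The principle `PrB` for definable families. -/
def DB (W : W1 g) : Prop :=
  ∀ f : W.T → ℕ → ℕ, g.Tm (fun z : W.T × ℕ => f z.1 z.2) →
    ∃ φ : ℕ → ℕ, g.Tm φ ∧ ∀ x, ∃ N, ∀ n, N ≤ n → f x n ≤ φ n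

/-- The principle `PrStar` for definable families. -/
def DStar (W : W1 g) : Prop :=
  ∀ A B : W.T → ℕ → W.T, g.Tm (fun z : W.T × ℕ => A z.1 z.2) →
    g.Tm (fun z : W.T × ℕ => B z.1 z.2) → (∀ x n, A x n ≤ B x n ∧ B x n ≤ x) →
    (∀ x n, ∃ N, ∀ n', N ≤ n' → B x n ≤ A x n') →
    ∃ C : W.T → Prop, g.Tm C ∧ (∀ a, ∃ c, C c ∧ a < c) ∧
      (∀ d, (∃ a, a < d) → (∀ a < d, ∃ c, C c ∧ a < c ∧ c < d) → C d) ∧
      ∀ x N, ∃ n, N ≤ n ∧ ∀ c, C c → A x n < c → B x n < c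

theorem dB_of (h : PrB g.E g.om W.w) : DB W := by
  intro f hf
  obtain ⟨F, hF, e⟩ := exists_tot2 (β := ℕ) nat_om hf
  obtain ⟨d, hd, h⟩ := h F hF
  refine ⟨fun n => un ℕ (ev g.M g.M d (g.nat n)), by fun_prop, fun x => ?_⟩
  obtain ⟨N, hN, h⟩ := h _ (ι_mem x)
  obtain ⟨N, rfl⟩ := E_om.1 hN
  refine ⟨N, fun n hn => ?_⟩
  have h₁ := app_ev hd (nat_om n)
  obtain ⟨m, hm⟩ := E_om.1 (fun_mem hd h₁).2
  have := h _ _ _ (nat_om n) (by rw [nat_lt]; omega) ((e _ _ _).2 rfl) h₁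
  dsimp only
  rw [← hm] at this ⊢
  rw [ι_nat, nat_lt] at this
  rw [← ι_nat, un_ι]
  omega

theorem dStar_of (h : PrStar g.E g.om W.w) : DStar W := by
  intro A B hA hB h₁ h₂
  obtain ⟨FA, hFA, eA⟩ := exists_tot2 (β := W.T) ι_mem hA
  obtain ⟨FB, hFB, eB⟩ := exists_tot2 (β := W.T) ι_mem hB
  obtain ⟨C, c₁, c₂, c₃, c₄⟩ := h FA FB hFA hFB (fun x n a b hx hn ha hb => by
      obtain ⟨x, rfl⟩ := exists_T hx
      obtain ⟨n, rfl⟩ := E_om.1 hn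
      rw [eA] at ha
      rw [eB] at hb
      subst ha hb
      exact ⟨not_lt.2 (h₁ x n).1, not_lt.2 (h₁ x n).2⟩) (fun x n hx hn => by
      obtain ⟨x, rfl⟩ := exists_T hx
      obtain ⟨n, rfl⟩ := E_om.1 hn
      obtain ⟨N, hN⟩ := h₂ x n
      refine ⟨_, nat_om N, fun n' a b hn' hN' ha hb => ?_⟩
      obtain ⟨n', rfl⟩ := E_om.1 hn'
      rw [eA] at ha
      rw [eB] at hb
      subst ha hb
      exact not_lt.2 (hN n' (not_lt.1 fun h => hN' (nat_lt.2 h))))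
  refine ⟨fun c => g.E (ι c) C, by fun_prop, fun a => ?_, fun d ⟨a, ha⟩ hd => ?_, fun x N => ?_⟩
  · obtain ⟨c, hc, h⟩ := c₂ _ (ι_mem a)
    obtain ⟨c, rfl⟩ := exists_T (c₁ c hc)
    exact ⟨c, hc, h⟩
  · refine c₃ _ (ι_mem d) ⟨_, ha⟩ fun b hb => ?_
    obtain ⟨b, rfl⟩ := exists_T (W.card.1.1 _ _ (ι_mem d) hb)
    obtain ⟨c, h⟩ := hd b hb
    exact ⟨_, h⟩
  · obtain ⟨n, hn, hN, h⟩ := c₄ _ _ (ι_mem x) (nat_om N)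
    obtain ⟨n, rfl⟩ := E_om.1 hn
    exact ⟨n, not_lt.1 fun h => hN (nat_lt.2 h), fun c hc hA =>
      h _ _ _ ((eA _ _ _).2 rfl) ((eB _ _ _).2 rfl) hc hA⟩

variable {O : Type*} [Cd g O] [Bd g O]

/-- `Q` is a neighbourhood of `x`. -/
def Nb (In : W.T → O → Prop) (Q : W.T → Prop) (x : W.T) : Prop :=
  ∃ U, In x U ∧ ∀ y, In y U → Q y

omit [Bd g O] in
@[fun_prop] theorem tm_Nb {In : W.T → O → Prop} (hIn : g.Tm (fun z : W.T × O => In z.1 z.2))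
    {Γ : Type*} [Cd g Γ] {Q : Γ → W.T → Prop} {x : Γ → W.T}
    (hQ : g.Tm (fun z : Γ × W.T => Q z.1 z.2)) (hx : g.Tm x) :
    g.Tm (fun p => Nb In (Q p) (x p)) := by
  unfold Nb
  fun_prop

/-- A regular space on `omega_1` with a sigma locally countable base, in coded form. -/
structure Hyp (In : W.T → O → Prop) (L : O → ℕ → Prop) : Prop where
  tIn : g.Tm (fun z : W.T × O => In z.1 z.2)
  tL : g.Tm (fun z : O × ℕ => L z.1 z.2)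
  mono : ∀ B n m, L B n → n ≤ m → L B m
  base : ∀ x U, In x U → ∃ B n, L B n ∧ In x B ∧ ∀ y, In y B → In y U
  inter : ∀ x U V, In x U → In x V → ∃ U', In x U' ∧ ∀ y, In y U' → In y U ∧ In y V
  loc : ∀ x n, ∃ U, In x U ∧ ∃ f : O → ℕ, g.Tm f ∧ ∀ B B' y y', L B n → L B' n → In y B →
    In y U → In y' B' → In y' U → f B = f B' → B = B'
  reg : ∀ x U, In x U → ∃ V, In x V ∧ ∀ y, ¬ In y U → Nb In (fun z => ¬ In z V) y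

variable {In : W.T → O → Prop} {L : O → ℕ → Prop}

omit [Cd g O] [Bd g O] in
theorem Nb.mono {Q R : W.T → Prop} {x : W.T} (h : Nb In Q x) (e : ∀ y, Q y → R y) : Nb In R x :=
  let ⟨U, h₁, h₂⟩ := h
  ⟨U, h₁, fun y hy => e y (h₂ y hy)⟩

omit [Cd g O] [Bd g O] in
theorem Nb.self {Q : W.T → Prop} {x : W.T} (h : Nb In Q x) : Q x :=
  let ⟨_, h₁, h₂⟩ := h
  h₂ x h₁

omit [Cd g O] [Bd g O] in
theorem Nb.nb {Q : W.T → Prop} {x : W.T} (h : Nb In Q x) : Nb In (Nb In Q) x :=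
  let ⟨U, h₁, h₂⟩ := h
  ⟨U, h₁, fun _ hy => ⟨U, hy, h₂⟩⟩

omit [Cd g O] [Bd g O] in
theorem Nb.of_in {U : O} {x : W.T} (h : In x U) : Nb In (fun y => In y U) x :=
  ⟨U, h, fun _ hy => hy⟩

omit [Bd g O] in
theorem Hyp.and (H : Hyp In L) {Q R : W.T → Prop} {x : W.T} (h₁ : Nb In Q x) (h₂ : Nb In R x) :
    Nb In (fun y => Q y ∧ R y) x := by
  obtain ⟨U, hU, h₁⟩ := h₁
  obtain ⟨V, hV, h₂⟩ := h₂
  obtain ⟨U', h, h'⟩ := H.inter x U V hU hV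
  exact ⟨U', h, fun y hy => ⟨h₁ y (h' y hy).1, h₂ y (h' y hy).2⟩⟩

omit [Bd g O] in
theorem Hyp.fin (H : Hyp In L) {I : Type*} {S : Set I} (hS : S.Finite) {Q : I → W.T → Prop}
    {x : W.T} (h : ∀ i ∈ S, Nb In (Q i) x) : Nb In (fun y => ∀ i ∈ S, Q i y) x := by
  induction S, hS using Set.Finite.induction_on with
  | empty =>
    obtain ⟨U, hU, -⟩ := H.loc x 0
    exact ⟨U, hU, fun _ _ _ h => h.elim⟩
  | @insert a S _ _ ih =>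
    refine (H.and (h a (Set.mem_insert _ _)) (ih fun i hi => h i (Set.mem_insert_of_mem _ hi))).mono
      fun y hy i hi => ?_
    rcases hi with rfl | hi
    exacts [hy.1, hy.2 i hi]

/-- The disjoint open families obtained from the club principle. -/
structure Key (In : W.T → O → Prop) (L : O → ℕ → Prop) (G : ℕ → W.T → W.T → Prop)
    (cd : W.T → O → ℕ) : Prop where
  tG : g.Tm (fun z : ℕ × W.T × W.T => G z.1 z.2.1 z.2.2)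
  tcd : g.Tm (fun z : W.T × O => cd z.1 z.2)
  op : ∀ m d x, G m d x → Nb In (G m d) x
  uniq : ∀ m d d' x, G m d x → G m d' x → d = d'
  often : ∀ x N, ∃ m d, N ≤ m ∧ G m d x
  inj : ∀ m d B B' x x', L B m → L B' m → In x B → G m d x → In x' B' → G m d x' →
    cd d B = cd d B' → B = B'

theorem Hyp.exists_key (H : Hyp In L) (hS : DStar W) : ∃ G cd, Key In L G cd := by
  classical
  have tIn := H.tIn
  have tL := H.tL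
  obtain ⟨mn, tmn, hmn⟩ := tm_choice (g := g)
    (Q := fun (B : O) (a : W.T) => ∀ z, In z B → In a B ∧ a ≤ z) (by fun_prop) fun B => by
      by_cases h : ∃ z, In z B
      · obtain ⟨a, ha, hmin⟩ := wellFounded_lt.has_min {z | In z B} h
        exact ⟨a, fun z hz => ⟨ha, not_lt.1 (hmin z hz)⟩⟩
      · exact ⟨⊥, fun z hz => absurd ⟨z, hz⟩ h⟩
  obtain ⟨Sm, tSm, hSm⟩ : ∃ Sm : O → ℕ → Prop, g.Tm (fun z : O × ℕ => Sm z.1 z.2) ∧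
      ∀ V n, Sm V n ↔ (∃ k, L V k) ∧ ∃ b, ∀ B z, L B n → In z B → In z V → mn B < b :=
    ⟨_, by fun_prop, fun _ _ => Iff.rfl⟩
  have Sm_anti : ∀ V n n', n ≤ n' → Sm V n' → Sm V n := fun V n n' hn h => by
    obtain ⟨h₁, b, hb⟩ := (hSm _ _).1 h
    exact (hSm _ _).2 ⟨h₁, b, fun B z hB => hb B z (H.mono _ _ _ hB hn)⟩
  have Sm_ex : ∀ x n, ∃ V, Sm V n ∧ In x V := fun x n => by
    obtain ⟨U, hU, f, tf, hf⟩ := H.loc x n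
    obtain ⟨b, hb⟩ := bounded (Q := fun B => L B n ∧ ∃ y, In y B ∧ In y U) (by fun_prop) tf tmn
      fun B B' ⟨h₁, y, h₂, h₃⟩ ⟨h₄, y', h₅, h₆⟩ => hf B B' y y' h₁ h₄ h₂ h₃ h₅ h₆
    obtain ⟨V, k, h₁, h₂, h₃⟩ := H.base x U hU
    exact ⟨V, (hSm _ _).2 ⟨⟨k, h₁⟩, b, fun B z h₄ h₅ h₆ => hb B ⟨h₄, z, h₅, h₃ z h₆⟩⟩, h₂⟩
  obtain ⟨F, tF, hF⟩ := tm_choice_fun (g := g) (Q := fun (p : W.T × ℕ) (f : O → ℕ) =>
    ∀ B B', L B p.2 → L B' p.2 → In p.1 B → In p.1 B' → f B = f B' → B = B') (by fun_prop)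
    fun p => by
      obtain ⟨U, hU, f, tf, hf⟩ := H.loc p.1 p.2
      exact ⟨f, tf, fun B B' h₁ h₂ h₃ h₄ => hf B B' _ _ h₁ h₂ h₃ hU h₄ hU⟩
  obtain ⟨lv, tlv, hlv⟩ := tm_choice (g := g)
    (Q := fun (B : O) (n : ℕ) => (∃ k, L B k) → L B n) (by fun_prop) fun B => by
      by_cases h : ∃ k, L B k
      · exact ⟨h.choose, fun _ => h.choose_spec⟩
      · exact ⟨0, fun h' => absurd h' h⟩
  obtain ⟨e, te, he⟩ := exists_e (W := W)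
  obtain ⟨cd, tcd, hcd⟩ : ∃ cd : W.T → O → ℕ, g.Tm (fun z : W.T × O => cd z.1 z.2) ∧
      ∀ a B B' z z', (∃ k, L B k) → (∃ k, L B' k) → In z B → In z' B' → mn B < a → mn B' < a →
        cd a B = cd a B' → B = B' := by
    refine ⟨fun a B => Nat.pair (e a (mn B)) (Nat.pair (lv B) (F (mn B, lv B) B)), by fun_prop,
      fun a B B' z z' h₁ h₂ h₃ h₄ h₅ h₆ h => ?_⟩
    obtain ⟨e₁, h⟩ := Nat.pair_eq_pair.1 h
    obtain ⟨e₂, e₃⟩ := Nat.pair_eq_pair.1 h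
    have e₄ := he _ _ _ h₅ h₆ e₁
    rw [← e₄, ← e₂] at e₃
    exact hF (mn B, lv B) B B' (hlv B h₁) (e₂ ▸ hlv B' h₂) (hmn B z h₃).1
      (e₄ ▸ (hmn B' z' h₄).1) e₃
  obtain ⟨R, tR, hR⟩ : ∃ R : W.T → W.T → Prop, g.Tm (fun z : W.T × W.T => R z.1 z.2) ∧
      ∀ a c, R a c ↔ ∀ V n B z, Sm V n → mn V < a → L B n → In z B → In z V → mn B < c :=
    ⟨_, by fun_prop, fun _ _ => Iff.rfl⟩
  have R_tot : ∀ a, ∃ b, ∀ c, b ≤ c → R a c := by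
    obtain ⟨t, tt, ht⟩ := tm_choice (g := g) (Q := fun (p : O × ℕ) (b : W.T) =>
      Sm p.1 p.2 → ∀ B z, L B p.2 → In z B → In z p.1 → mn B < b) (by fun_prop) fun p => by
        by_cases h : Sm p.1 p.2
        · obtain ⟨-, b, hb⟩ := (hSm _ _).1 h
          exact ⟨b, fun _ => hb⟩
        · exact ⟨⊥, fun h' => absurd h' h⟩
    intro a
    obtain ⟨b, hb⟩ := bounded (Q := fun p : O × ℕ => (∃ k, L p.1 k) ∧ (∃ z, In z p.1) ∧ mn p.1 < a)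
      (f := fun p => Nat.pair (cd a p.1) p.2) (by fun_prop) (by fun_prop) tt
      fun p q ⟨h₁, ⟨z, h₂⟩, h₃⟩ ⟨h₄, ⟨z', h₅⟩, h₆⟩ h =>
        Prod.ext (hcd a _ _ z z' h₁ h₄ h₂ h₅ h₃ h₆ (Nat.pair_eq_pair.1 h).1)
          (Nat.pair_eq_pair.1 h).2
    exact ⟨b, fun c hc => (hR _ _).2 fun V n B z h₁ h₂ h₃ h₄ h₅ =>
      ((ht (V, n) h₁ B z h₃ h₄ h₅).trans (hb (V, n) ⟨((hSm _ _).1 h₁).1, ⟨z, h₅⟩, h₂⟩)).trans_le hc⟩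
  obtain ⟨Vs, tVs, hVs⟩ := tm_choice (g := g) (Q := fun (p : W.T × ℕ) (V : O) =>
    Sm V p.2 ∧ In p.1 V ∧ ∀ V', Sm V' p.2 → In p.1 V' → mn V ≤ mn V') (by fun_prop) fun p => by
      obtain ⟨V, h₁, h₂⟩ := Sm_ex p.1 p.2
      obtain ⟨_, ⟨V, h₁, h₂, rfl⟩, hmin⟩ := wellFounded_lt.has_min
        {a | ∃ V, Sm V p.2 ∧ In p.1 V ∧ mn V = a} ⟨_, V, h₁, h₂, rfl⟩
      exact ⟨V, h₁, h₂, fun V' h₃ h₄ => not_lt.1 (hmin _ ⟨V', h₃, h₄, rfl⟩)⟩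
  have r_mono : ∀ x n n', n ≤ n' → mn (Vs (x, n)) ≤ mn (Vs (x, n')) := fun x n n' h =>
    (hVs (x, n)).2.2 _ (Sm_anti _ _ _ h (hVs (x, n')).1) (hVs (x, n')).2.1
  obtain ⟨Sep, tSep, hSep⟩ : ∃ Sep : W.T → ℕ → W.T → Prop,
      g.Tm (fun z : W.T × ℕ × W.T => Sep z.1 z.2.1 z.2.2) ∧ ∀ x n a, Sep x n a ↔
        Nb In (fun z => ∀ V c, Sm V n → R c c → mn V < c → c ≤ a → ¬ In z V) x :=
    ⟨_, by fun_prop, fun _ _ _ => Iff.rfl⟩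
  obtain ⟨A, tA, hA⟩ := tm_choice (g := g) (Q := fun (p : W.T × ℕ) (a : W.T) =>
    a ≤ mn (Vs p) ∧ Sep p.1 p.2 a ∧ ∀ n, n ≤ p.2 → Sep p.1 p.2 (mn (Vs (p.1, n))) →
      mn (Vs (p.1, n)) ≤ a) (by fun_prop) fun p => by
      by_cases h : ∃ n, n ≤ p.2 ∧ Sep p.1 p.2 (mn (Vs (p.1, n)))
      · obtain ⟨n, h₁, h₂⟩ := h
        exact ⟨_, r_mono _ _ _ (Nat.findGreatest_le _),
          Nat.findGreatest_spec (P := fun n => Sep p.1 p.2 (mn (Vs (p.1, n)))) h₁ h₂,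
          fun k h₃ h₄ => r_mono _ _ _ (Nat.le_findGreatest h₃ h₄)⟩
      · refine ⟨⊥, bot_le, (hSep _ _ _).2 ⟨Vs p, (hVs p).2.1, fun z _ V c _ _ h₁ h₂ => ?_⟩,
          fun n h₁ h₂ => absurd ⟨n, h₁, h₂⟩ h⟩
        exact absurd (h₁.trans_le h₂) not_lt_bot
  obtain ⟨C, tC, c₁, c₂, c₃⟩ := hS (fun x n => A (x, n)) (fun x n => mn (Vs (x, n)))
    (by fun_prop) (by fun_prop) (fun x n => ⟨(hA (x, n)).1, (hmn _ _ (hVs (x, n)).2.1).2⟩)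
    fun x n => by
      obtain ⟨k, hk⟩ := ((hSm _ _).1 (hVs (x, n)).1).1
      refine ⟨max n k, fun n' hn' => (hA (x, n')).2.2 n (le_of_max_le_left hn')
        ((hSep _ _ _).2 ⟨_, (hVs (x, n)).2.1, fun z hz V c h₁ h₂ h₃ h₄ h₅ => ?_⟩)⟩
      exact absurd ((hR _ _).1 h₂ V n' _ z h₁ h₃ (H.mono _ _ _ hk (le_of_max_le_right hn')) hz h₅)
        (not_lt.2 h₄)
  have unb : ∀ a, ∃ d, (C d ∧ R d d) ∧ a < d := fun a => by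
    obtain ⟨d, h₁, h₂, h₃⟩ := exists_closure tC c₁ c₂ tR R_tot a
    refine ⟨d, ⟨h₁, (hR _ _).2 fun V n B z h₄ h₅ h₆ h₇ h₈ => ?_⟩, h₂⟩
    obtain ⟨y, y', k₁, -, k₂, k₃⟩ := h₃ _ h₅
    exact ((hR _ _).1 k₃ V n B z h₄ k₁ h₆ h₇ h₈).trans k₂
  refine ⟨fun m d x => (C d ∧ R d d) ∧ (∃ V, Sm V m ∧ In x V ∧ mn V < d) ∧
    Nb In (fun z => ∀ V c, Sm V m → C c ∧ R c c → mn V < c → c < d → ¬ In z V) x, cd,
    by fun_prop, tcd, ?_, ?_, fun x N => ?_, ?_⟩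
  · rintro m d x ⟨h₁, ⟨V, h₂, h₃, h₄⟩, h₅⟩
    exact (H.and (Nb.of_in h₃) h₅.nb).mono fun y hy => ⟨h₁, ⟨V, h₂, hy.1, h₄⟩, hy.2⟩
  · rintro m d d' x ⟨h₁, ⟨V, h₂, h₃, h₄⟩, h₅⟩ ⟨k₁, ⟨V', k₂, k₃, k₄⟩, k₅⟩
    rcases lt_trichotomy d d' with h | h | h
    exacts [absurd h₃ (k₅.self V d h₂ h₁ h₄ h), h, absurd k₃ (h₅.self V' d' k₂ k₁ k₄ h)]
  · obtain ⟨n, hn, h⟩ := c₃ x N
    obtain ⟨d, ⟨h₁, h₂⟩, hmin⟩ := wellFounded_lt.has_min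
      {d | (C d ∧ R d d) ∧ mn (Vs (x, n)) < d} (unb _)
    refine ⟨n, d, hn, h₁, ⟨_, (hVs (x, n)).1, (hVs (x, n)).2.1, h₂⟩,
      ((hSep _ _ _).1 (hA (x, n)).2.1).mono fun z hz V c k₁ k₂ k₃ k₄ => ?_⟩
    exact hz V c k₁ k₂.2 k₃ (not_lt.1 fun k₅ => hmin c ⟨k₂, h c k₂.1 k₅⟩ k₄)
  · rintro m d B B' x x' h₁ h₂ h₃ ⟨h₄, ⟨V, h₅, h₆, h₇⟩, -⟩ k₃ ⟨-, ⟨V', k₅, k₆, k₇⟩, -⟩
    exact hcd d B B' x x' ⟨m, h₁⟩ ⟨m, h₂⟩ h₃ k₃ ((hR _ _).1 h₄.2 V m B x h₅ h₇ h₁ h₃ h₆)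
      ((hR _ _).1 h₄.2 V' m B' x' k₅ k₇ h₂ k₃ k₆)

end Pool.Agent.MP_5a4599_gt
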