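import Pool.Agent.MP_c6cf52_lc.Defs

namespace Pool.Agent.MP_5a4599_gt

open Pool.Agent.MP_c6cf52_lc

universe u

variable {M : Type u} (E : M → M → Prop)

/-- Inclusion. -/
def Sub (a b : M) : Prop := ∀ x, E x a → E x b

/-- `w` is the first infinite ordinal: a nonzero limit ordinal all of whose nonzero members have a
largest member. -/
def IsOmega (w : M) : Prop :=
  IsOrd E w ∧ (∃ x, E x w) ∧ (∀ x, E x w → ∃ y, E y w ∧ E x y) ∧
    ∀ x, E x w → (∃ y, E y x) → ∃ y, E y x ∧ ∀ z, E z x → ¬ E y z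

/-- `a` is countable (`w` is omega). -/
def Ctbl (w a : M) : Prop := ∃ f, IsInj E f a w

/-- `T` is a topology on `X`. -/
def IsTop (X T : M) : Prop :=
  (∀ U, E U T → Sub E U X) ∧ E X T ∧
    (∀ S, Sub E S T → ∃ W, E W T ∧ ∀ x, E x W ↔ ∃ U, E U S ∧ E x U) ∧
    ∀ U V, E U T → E V T → ∃ W, E W T ∧ ∀ x, E x W ↔ E x U ∧ E x V

/-- The space is `T1` and regular. -/
def IsRegT1 (X T : M) : Prop :=
  (∀ x y, E x X → E y X → x ≠ y → ∃ U, E U T ∧ E x U ∧ ¬ E y U) ∧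
    ∀ x U, E U T → E x U → ∃ V W, E V T ∧ E W T ∧ E x V ∧ (∀ y, E y X → ¬ E y U → E y W) ∧
      ∀ z, ¬ (E z V ∧ E z W)

/-- The family `B` is locally countable. -/
def LocCtbl (w X T B : M) : Prop :=
  ∀ x, E x X → ∃ U, E U T ∧ E x U ∧ ∃ c, Ctbl E w c ∧ ∀ V, E V B → (∃ z, E z U ∧ E z V) → E V c

/-- There is a base that is the union of countably many locally countable families. -/
def HasSigmaBase (w X T : M) : Prop :=
  ∃ S, Ctbl E w S ∧ (∀ B, E B S → Sub E B T ∧ LocCtbl E w X T B) ∧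
    ∀ x U, E U T → E x U → ∃ B V, E B S ∧ E V B ∧ E x V ∧ Sub E V U

/-- Every closed set (complement of an open `U`) is a countable intersection of open sets. -/
def IsPerfect (w X T : M) : Prop :=
  ∀ U, E U T → ∃ O, Sub E O T ∧ Ctbl E w O ∧ ∀ x, E x X → (¬ E x U ↔ ∀ V, E V O → E x V)

/-- Every open cover has a point-finite open refinement. -/
def IsMetacompact (w X T : M) : Prop :=
  ∀ C, Sub E C T → (∀ x, E x X → ∃ U, E U C ∧ E x U) →
    ∃ R, Sub E R T ∧ (∀ x, E x X → ∃ V, E V R ∧ E x V) ∧ (∀ V, E V R → ∃ U, E U C ∧ Sub E V U) ∧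
      ∀ x, E x X → ∃ n s f, E n w ∧ (∀ V, E V s ↔ E V R ∧ E x V) ∧ IsInj E f s n

end Pool.Agent.MP_5a4599_gt
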