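import Pool.Agent.MP_5a4599_gt.Comb

namespace Pool.Agent.MP_5a4599_gt

open Pool.Agent.MP_c6cf52_lc Gen Cd W1

universe u

variable {P : Type u} [Preorder P] [OrderTop P] {g : Gen P} {W : W1 g}

section Coded

variable {O : Type*} [Cd g O] [Bd g O] {In : W.T → O → Prop} {L : O → ℕ → Prop}
  {G : ℕ → W.T → W.T → Prop} {cd : W.T → O → ℕ}

omit [Bd g O] in
theorem Key.perfect (H : Hyp In L) (K : Key In L G cd) (hB : DB W) {U : ℕ → W.T → Prop}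
    (tU : g.Tm (fun z : ℕ × W.T => U z.1 z.2)) (hU : ∀ i x, U i x → Nb In (U i) x) :
    ∃ S : ℕ → ℕ → W.T → Prop, g.Tm (fun z : ℕ × ℕ × W.T => S z.1 z.2.1 z.2.2) ∧
      (∀ i x, U i x → ∃ j, ∀ j', j ≤ j' → S i j' x) ∧
      ∀ i j y, ¬ U i y → Nb In (fun z => ¬ S i j z) y := by
  have tIn := H.tIn
  have tL := H.tL
  have tG := K.tG
  have tcd := K.tcd
  obtain ⟨Bs, tBs, hBs⟩ := tm_choice (g := g) (Q := fun (p : ℕ × W.T) (B : O) => U p.1 p.2 →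
    (∃ k, L B k) ∧ In p.2 B ∧ ∀ y, ¬ U p.1 y → Nb In (fun z => ¬ In z B) y) (by fun_prop)
    fun p => by
      by_cases h : U p.1 p.2
      · obtain ⟨V, h₁, h₂⟩ := hU _ _ h
        obtain ⟨V', h₃, h₄⟩ := H.reg _ _ h₁
        obtain ⟨B, k, h₅, h₆, h₇⟩ := H.base _ _ h₃
        exact ⟨B, fun _ => ⟨⟨k, h₅⟩, h₆, fun y hy =>
          (h₄ y fun h' => hy (h₂ y h')).mono fun z hz h' => hz (h₇ z h')⟩⟩
      · obtain ⟨V, -⟩ := H.loc p.2 0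
        exact ⟨V, fun h' => absurd h' h⟩
  obtain ⟨dd, tdd, hdd⟩ := tm_choice (g := g) (Q := fun (p : ℕ × W.T) (d : W.T) =>
    ∀ d', G p.1 d' p.2 → d = d') (by fun_prop) fun p => by
      by_cases h : ∃ d, G p.1 d p.2
      · obtain ⟨d, h⟩ := h
        exact ⟨d, fun d' h' => K.uniq _ _ _ _ h h'⟩
      · exact ⟨⊥, fun d' h' => absurd ⟨d', h'⟩ h⟩
  obtain ⟨φ, tφ, hφ⟩ := tm_choice_fun (g := g) (Q := fun (i : ℕ) (φ : ℕ → ℕ) =>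
    ∀ x, ∃ N, ∀ n, N ≤ n → cd (dd (n, x)) (Bs (i, x)) ≤ φ n) (by fun_prop)
    fun i => hB _ (by fun_prop)
  refine ⟨fun i j x => U i x ∧ L (Bs (i, x)) j ∧ ∀ n, j ≤ n → cd (dd (n, x)) (Bs (i, x)) ≤ φ i n,
    by fun_prop, fun i x hx => ?_, fun i j y hy => ?_⟩
  · obtain ⟨k, hk⟩ := (hBs (i, x) hx).1
    obtain ⟨N, hN⟩ := hφ i x
    exact ⟨max k N, fun j hj => ⟨hx, H.mono _ _ _ hk (le_of_max_le_left hj),
      fun n hn => hN n ((le_of_max_le_right hj).trans hn)⟩⟩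
  · obtain ⟨m, d, hm, hG⟩ := K.often y j
    have fin : {B | (L B m ∧ (∃ x, In x B ∧ G m d x) ∧ cd d B ≤ φ i m) ∧
        Nb In (fun z => ¬ In z B) y}.Finite := by
      refine Set.Finite.of_injOn (f := cd d) (t := Set.Iic (φ i m)) (fun B hB => hB.1.2.2) ?_
        (Set.finite_Iic _)
      rintro B ⟨⟨h₁, ⟨x, h₂, h₃⟩, -⟩, -⟩ B' ⟨⟨k₁, ⟨x', k₂, k₃⟩, -⟩, -⟩
      exact K.inj m d B B' x x' h₁ k₁ h₂ h₃ k₂ k₃
    refine (H.and (K.op _ _ _ hG) (H.fin fin fun B hB => hB.2)).mono ?_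
    rintro z ⟨h₁, h₂⟩ ⟨h₃, h₄, h₅⟩
    obtain ⟨-, k₁, k₂⟩ := hBs (i, z) h₃
    refine h₂ _ ⟨⟨H.mono _ _ _ h₄ hm, ⟨z, k₁, h₁⟩, ?_⟩, k₂ y hy⟩ k₁
    rw [← hdd (m, z) d h₁]
    exact h₅ m hm

omit [Bd g O] in
theorem Key.metacompact (H : Hyp In L) (K : Key In L G cd) (hB : DB W) {Rf : O → Prop}
    (tRf : g.Tm Rf) (cov : ∀ x, ∃ B n, L B n ∧ In x B ∧ Rf B) :
    ∃ Y : ℕ × W.T × O → W.T → Prop, g.Tm (fun z : (ℕ × W.T × O) × W.T => Y z.1 z.2) ∧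
      (∀ p x, Y p x → Nb In (Y p) x) ∧ (∀ x, ∃ p, Y p x) ∧ (∀ x, {p | Y p x}.Finite) ∧
      ∀ p x, Y p x → Rf p.2.2 ∧ In x p.2.2 := by
  classical
  have tIn := H.tIn
  have tL := H.tL
  have tG := K.tG
  have tcd := K.tcd
  obtain ⟨Z, tZ, hZ⟩ : ∃ Z : ℕ × W.T × O → W.T → Prop,
      g.Tm (fun z : (ℕ × W.T × O) × W.T => Z z.1 z.2) ∧
      ∀ p x, Z p x ↔ Rf p.2.2 ∧ L p.2.2 p.1 ∧ In x p.2.2 ∧ G p.1 p.2.1 x :=
    ⟨_, by fun_prop, fun _ _ => Iff.rfl⟩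
  obtain ⟨c, tc, hc⟩ : ∃ c : ℕ × W.T × O → ℕ, g.Tm c ∧
      ∀ p q x, Z p x → Z q x → c p = c q → p = q := by
    refine ⟨fun p => Nat.pair p.1 (cd p.2.1 p.2.2), by fun_prop, ?_⟩
    rintro ⟨m, d, B⟩ ⟨m', d', B'⟩ x h₁ h₂ e
    obtain ⟨-, h₃, h₄, h₅⟩ := (hZ _ _).1 h₁
    obtain ⟨-, k₃, k₄, k₅⟩ := (hZ _ _).1 h₂
    obtain ⟨rfl, e₂⟩ := Nat.pair_eq_pair.1 e
    obtain rfl := K.uniq _ _ _ _ h₅ k₅
    obtain rfl : B = B' := K.inj _ _ _ _ _ _ h₃ k₃ h₄ h₅ k₄ k₅ e₂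
    rfl
  have Zop : ∀ p x, Z p x → Nb In (Z p) x := fun p x h => by
    obtain ⟨h₁, h₂, h₃, h₄⟩ := (hZ _ _).1 h
    exact (H.and (Nb.of_in h₃) (K.op _ _ _ h₄)).mono fun y hy => (hZ _ _).2 ⟨h₁, h₂, hy⟩
  have Zcov : ∀ x, ∃ i p, c p = i ∧ Z p x := fun x => by
    obtain ⟨B, n, h₁, h₂, h₃⟩ := cov x
    obtain ⟨m, d, hm, hG⟩ := K.often x n
    exact ⟨_, (m, d, B), rfl, (hZ _ _).2 ⟨h₃, H.mono _ _ _ h₁ hm, h₂, hG⟩⟩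
  obtain ⟨S, tS, h₁, h₂⟩ := K.perfect H hB (U := fun i x => ∃ p, c p = i ∧ Z p x) (by fun_prop)
    fun i x ⟨p, e, h⟩ => (Zop p x h).mono fun y hy => ⟨p, e, hy⟩
  refine ⟨fun p x => Z p x ∧ Nb In (fun z => ∀ i, i < c p → ¬ S i (c p) z) x, by fun_prop,
    fun p x h => H.and (Zop p x h.1) h.2.nb, fun x => ?_, fun x => ?_, fun p x h => ?_⟩
  · obtain ⟨p, e, h⟩ := Nat.find_spec (Zcov x)
    exact ⟨p, h, H.fin (Set.finite_Iio (c p)) fun i hi =>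
      h₂ i _ x (Nat.find_min (Zcov x) (e ▸ hi))⟩
  · obtain ⟨i, hi⟩ := Zcov x
    obtain ⟨j, hj⟩ := h₁ i x hi
    refine Set.Finite.of_injOn (f := c) (t := Set.Iic (max i j)) (fun p hp => ?_)
      (fun p hp q hq => hc p q x hp.1 hq.1) (Set.finite_Iic _)
    by_contra h
    have h : max i j < c p := not_le.1 h
    exact hp.2.self i (lt_of_le_of_lt (le_max_left _ _) h)
      (hj _ ((le_max_right _ _).trans h.le))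
  · obtain ⟨k₁, -, k₂, -⟩ := (hZ _ _).1 h.1
    exact ⟨k₁, k₂⟩

end Coded

theorem isOmega_om : IsOmega g.E g.om := by
  refine ⟨isOrd_setN Name.natWf natTri g.omega_mem fun _ _ _ _ => trivial, ⟨_, nat_om 0⟩,
    fun x hx => ?_, fun x hx ⟨y, hy⟩ => ?_⟩
  · obtain ⟨n, rfl⟩ := E_om.1 hx
    exact ⟨_, nat_om (n + 1), nat_lt.2 (Nat.lt_succ_self n)⟩
  · obtain ⟨n, rfl⟩ := E_om.1 hx
    obtain ⟨m, hm, -⟩ := E_nat.1 hy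
    refine ⟨g.nat (n - 1), nat_lt.2 (by omega), fun z hz => ?_⟩
    obtain ⟨k, hk, rfl⟩ := E_nat.1 hz
    rw [nat_lt]
    omega

section Internal

variable {X T : g.M} {pt : W.T → g.M}

theorem exists_open (tpt : g.Tm pt) (hT : IsTop g.E X T) {Q : W.T → Prop} (tQ : g.Tm Q)
    (h : ∀ x, Q x → Nb (fun a (U : g.Elt T) => g.E (pt a) U.1) Q x) :
    ∃ V, g.E V T ∧ ∀ x, g.E (pt x) V ↔ Q x := by
  obtain ⟨S, hS⟩ := tm_sep (Q := fun V => ∀ a, g.E (pt a) V → Q a) (by fun_prop) T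
  obtain ⟨V, hV, e⟩ := hT.2.2.1 S fun x hx => ((hS x).1 hx).1
  refine ⟨V, hV, fun x => (e _).trans ⟨fun ⟨U, h₁, h₂⟩ => ((hS U).1 h₁).2 x h₂, fun hx => ?_⟩⟩
  obtain ⟨U, h₁, h₂⟩ := h x hx
  exact ⟨U.1, (hS _).2 ⟨U.2, h₂⟩, h₁⟩

theorem open_ext (hpt : ∀ y, g.E y X → ∃ a, pt a = y) (hT : IsTop g.E X T) {U V : g.M}
    (hU : g.E U T) (hV : g.E V T) (h : ∀ a, g.E (pt a) U ↔ g.E (pt a) V) : U = V := by
  refine ext fun y => ⟨fun hy => ?_, fun hy => ?_⟩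
  · obtain ⟨a, rfl⟩ := hpt y (hT.1 U hU y hy)
    exact (h a).1 hy
  · obtain ⟨a, rfl⟩ := hpt y (hT.1 V hV y hy)
    exact (h a).2 hy

theorem exists_hyp (tpt : g.Tm pt) (hX : ∀ a, g.E (pt a) X) (hT : IsTop g.E X T)
    (hR : IsRegT1 g.E X T) (hB : HasSigmaBase g.E g.om X T) :
    ∃ L, Hyp (fun a (U : g.Elt T) => g.E (pt a) U.1) L := by
  classical
  obtain ⟨S, hS, h₁, h₂⟩ := hB
  obtain ⟨f, tf, hf⟩ := ctbl_iff.1 hS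
  have inter : ∀ x (U V : g.Elt T), g.E (pt x) U.1 → g.E (pt x) V.1 → ∃ U' : g.Elt T,
      g.E (pt x) U'.1 ∧ ∀ y, g.E (pt y) U'.1 → g.E (pt y) U.1 ∧ g.E (pt y) V.1 := by
    intro x U V hU hV
    obtain ⟨U', h, e⟩ := hT.2.2.2 _ _ U.2 V.2
    exact ⟨⟨U', h⟩, (e _).2 ⟨hU, hV⟩, fun y hy => (e _).1 hy⟩
  refine ⟨fun B n => ∃ B₀, g.E B₀ S ∧ f B₀ < n ∧ g.E B.1 B₀, by fun_prop, by fun_prop,
    fun B n m ⟨B₀, k₁, k₂, k₃⟩ h => ⟨B₀, k₁, k₂.trans_le h, k₃⟩, fun x U h => ?_, inter,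
    fun x n => ?_, fun x U h => ?_⟩
  · obtain ⟨B₀, V, k₁, k₂, k₃, k₄⟩ := h₂ _ _ U.2 h
    exact ⟨⟨V, (h₁ B₀ k₁).1 V k₂⟩, f B₀ + 1, ⟨B₀, k₁, Nat.lt_succ_self _, k₂⟩, k₃,
      fun y hy => k₄ _ hy⟩
  · induction n with
    | zero =>
      exact ⟨⟨X, hT.2.1⟩, hX x, fun _ => 0, by fun_prop,
        fun B _ _ _ ⟨_, _, h, _⟩ => absurd h (Nat.not_lt_zero _)⟩
    | succ n ih =>
      obtain ⟨U, hU, F, tF, hF⟩ := ih
      by_cases h : ∃ B₁, g.E B₁ S ∧ f B₁ = n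
      · obtain ⟨B₁, k₁, k₂⟩ := h
        obtain ⟨V, hV, hxV, c, hc, hc'⟩ := (h₁ B₁ k₁).2 _ (hX x)
        obtain ⟨F', tF', hF'⟩ := ctbl_iff.1 hc
        obtain ⟨U', hU', e⟩ := inter x U ⟨V, hV⟩ hU hxV
        refine ⟨U', hU', fun B => if g.E B.1 B₁ then 2 * F' B.1 else 2 * F B + 1, by fun_prop, ?_⟩
        rintro B B' y y' ⟨B₀, a₁, a₂, a₃⟩ ⟨B₀', b₁, b₂, b₃⟩ a₄ a₅ b₄ b₅ h
        dsimp only at h
        split_ifs at h with c₁ c₂ c₂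
        · exact Subtype.ext (hF' _ _ (hc' _ c₁ ⟨_, (e y a₅).2, a₄⟩)
            (hc' _ c₂ ⟨_, (e y' b₅).2, b₄⟩) (by omega))
        · omega
        · omega
        · have d₁ : f B₀ ≠ n := fun h' => c₁ (hf _ _ a₁ k₁ (h'.trans k₂.symm) ▸ a₃)
          have d₂ : f B₀' ≠ n := fun h' => c₂ (hf _ _ b₁ k₁ (h'.trans k₂.symm) ▸ b₃)
          exact hF B B' y y' ⟨B₀, a₁, by omega, a₃⟩ ⟨B₀', b₁, by omega, b₃⟩ a₄ (e y a₅).1 b₄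
            (e y' b₅).1 (by omega)
      · refine ⟨U, hU, F, tF, ?_⟩
        rintro B B' y y' ⟨B₀, a₁, a₂, a₃⟩ ⟨B₀', b₁, b₂, b₃⟩
        have d₁ : f B₀ ≠ n := fun h' => h ⟨_, a₁, h'⟩
        have d₂ : f B₀' ≠ n := fun h' => h ⟨_, b₁, h'⟩
        exact hF B B' y y' ⟨B₀, a₁, by omega, a₃⟩ ⟨B₀', b₁, by omega, b₃⟩
  · obtain ⟨V, V', k₁, k₂, k₃, k₄, k₅⟩ := hR.2 _ _ U.2 h
    exact ⟨⟨V, k₁⟩, k₃, fun y hy => ⟨⟨V', k₂⟩, k₄ _ (hX y) hy, fun z hz hz' => k₅ _ ⟨hz', hz⟩⟩⟩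

end Internal

/-- The internal theorem: the two principles make all the spaces perfect and metacompact. -/
theorem perfect_and_metacompact (W : W1 g) (hB : PrB g.E g.om W.w) (hS : PrStar g.E g.om W.w)
    (X T : g.M) (hX : ∃ h, IsInj g.E h W.w X ∧ ∀ y, g.E y X → ∃ a, App g.E h a y)
    (hT : IsTop g.E X T) (hR : IsRegT1 g.E X T) (hb : HasSigmaBase g.E g.om X T) :
    IsPerfect g.E g.om X T ∧ IsMetacompact g.E g.om X T := by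
  obtain ⟨h, hh, hs⟩ := hX
  obtain ⟨pt, tpt, h₁, h₂⟩ : ∃ pt : W.T → g.M, g.Tm pt ∧ (∀ a, g.E (pt a) X) ∧
      ∀ y, g.E y X → ∃ a, pt a = y := by
    refine ⟨fun a => ev g.M g.M h (ι a), by fun_prop,
      fun a => (fun_mem hh.1 (app_ev hh.1 (ι_mem a))).2, fun y hy => ?_⟩
    obtain ⟨a, ha⟩ := hs y hy
    obtain ⟨a, rfl⟩ := exists_T (fun_mem hh.1 ha).1
    exact ⟨a, fun_uniq hh.1 (app_ev hh.1 (ι_mem a)) ha⟩
  obtain ⟨L, H⟩ := exists_hyp tpt h₁ hT hR hb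
  obtain ⟨G, cd, K⟩ := H.exists_key (dStar_of hS)
  have tIn := H.tIn
  constructor
  · intro U hU
    obtain ⟨S, tS, k₁, k₂⟩ := K.perfect H (dB_of hB) (U := fun _ x => g.E (pt x) U) (by fun_prop)
      fun _ x hx => ⟨⟨U, hU⟩, hx, fun _ hy => hy⟩
    obtain ⟨O, tO, hO⟩ := tm_choice (g := g) (Q := fun (j : ℕ) (V : g.M) => g.E V T ∧
      ∀ x, g.E (pt x) V ↔ Nb (fun a (U : g.Elt T) => g.E (pt a) U.1) (fun z => ¬ S 0 j z) x)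
      (by fun_prop) fun j => exists_open tpt hT (by fun_prop) fun _ h => h.nb
    obtain ⟨O', hO'⟩ := tm_image (Q := fun _ => True) (by fun_prop) tO
    obtain ⟨jj, tjj, hjj⟩ := tm_choice (g := g) (Q := fun (V : g.Elt O') (j : ℕ) => O j = V.1)
      (by fun_prop) fun V => by simpa using (hO' _).1 V.2
    have : Nonempty (g.Elt O') := ⟨⟨O 0, (hO' _).2 ⟨0, trivial, rfl⟩⟩⟩
    refine ⟨O', fun V hV => ?_, ctbl_iff.2 ⟨fun x => jj (un _ x), by fun_prop,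
      fun V V' hV hV' e => ?_⟩, fun y hy => ?_⟩
    · obtain ⟨j, -, rfl⟩ := (hO' _).1 hV
      exact (hO j).1
    · have e₁ := un_ι (g := g) (α := g.Elt O') ⟨V, hV⟩
      have e₂ := un_ι (g := g) (α := g.Elt O') ⟨V', hV'⟩
      rw [ι_elt] at e₁ e₂
      dsimp only at e e₁ e₂
      rw [e₁, e₂] at e
      exact (hjj ⟨V, hV⟩).symm.trans (e ▸ hjj ⟨V', hV'⟩)
    · obtain ⟨a, rfl⟩ := h₂ y hy
      refine ⟨fun ha V hV => ?_, fun ha hU => ?_⟩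
      · obtain ⟨j, -, rfl⟩ := (hO' _).1 hV
        exact ((hO j).2 a).2 (k₂ 0 j a ha)
      · obtain ⟨j, hj⟩ := k₁ 0 a hU
        exact (((hO j).2 a).1 (ha _ ((hO' _).2 ⟨j, trivial, rfl⟩))).self (hj j le_rfl)
  · intro C hC cov
    obtain ⟨Y, tY, k₁, k₂, k₃, k₄⟩ := K.metacompact H (dB_of hB)
      (Rf := fun B => ∃ U, g.E U C ∧ ∀ a, g.E (pt a) B.1 → g.E (pt a) U) (by fun_prop) fun x => by
        obtain ⟨U, hU, hx⟩ := cov _ (h₁ x)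
        obtain ⟨B, n, a₁, a₂, a₃⟩ := H.base x ⟨U, hC U hU⟩ hx
        exact ⟨B, n, a₁, a₂, U, hU, a₃⟩
    obtain ⟨R, hR⟩ := tm_sep (Q := fun V => ∃ p x₀, Y p x₀ ∧ ∀ x, g.E (pt x) V ↔ Y p x)
      (by fun_prop) T
    refine ⟨R, fun V hV => ((hR V).1 hV).1, fun y hy => ?_, fun V hV => ?_, fun y hy => ?_⟩
    · obtain ⟨a, rfl⟩ := h₂ y hy
      obtain ⟨p, hp⟩ := k₂ a
      obtain ⟨V, hV, e⟩ := exists_open tpt hT (Q := Y p) (by fun_prop) (k₁ p)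
      exact ⟨V, (hR V).2 ⟨hV, p, a, hp, e⟩, (e a).2 hp⟩
    · obtain ⟨hV, p, a, hp, e⟩ := (hR V).1 hV
      obtain ⟨U, hU, h'⟩ := (k₄ p a hp).1
      refine ⟨U, hU, fun y hy => ?_⟩
      obtain ⟨b, rfl⟩ := h₂ y (hT.1 V hV y hy)
      exact h' b (k₄ p b ((e b).1 hy)).2
    · obtain ⟨a, rfl⟩ := h₂ y hy
      refine exists_fin (S := {V | g.E V R ∧ g.E (pt a) V}) (((k₃ a).biUnion
        (t := fun p => {V | g.E V T ∧ ∀ x, g.E (pt x) V ↔ Y p x}) fun p _ =>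
          Set.Subsingleton.finite fun U hU V hV => open_ext h₂ hT hU.1 hV.1 fun b =>
            (hU.2 b).trans (hV.2 b).symm).subset ?_)
      rintro V ⟨hV, ha⟩
      obtain ⟨hV, p, -, -, e⟩ := (hR V).1 hV
      exact Set.mem_biUnion ((e a).1 ha) ⟨hV, e⟩

end Pool.Agent.MP_5a4599_gt
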