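import Pool.Agent.MP_5a4599_gt.Force
import Pool.Agent.MP_5a4599_gt.Topo

namespace Pool.Agent.MP_5a4599_gt

open Pool.Agent.MP_c6cf52_lc

theorem final : ∃ (M : Type 2) (E : M → M → Prop), IsZFC E ∧ ∃ w w1, IsOmega E w ∧ IsCard E w1 ∧
    E w w1 ∧ (∀ m, IsCard E m → E w m → ¬ E m w1) ∧ ∀ X T,
      (∃ h, IsInj E h w1 X ∧ ∀ y, E y X → ∃ a, App E h a y) → IsTop E X T → IsRegT1 E X T →
        HasSigmaBase E w X T → IsPerfect E w X T ∧ IsMetacompact E w X T := by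
  obtain ⟨g, w1, h₁, h₂, h₃, h₄, h₅⟩ := exists_model
  exact ⟨g.M, g.E, g.isZFC, g.om, w1, isOmega_om, h₁, h₂, h₃,
    perfect_and_metacompact ⟨w1, h₁, h₂, h₃⟩ h₄ h₅⟩

end Pool.Agent.MP_5a4599_gt
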