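import Pool.Agent.MP_5a4599_gt.Capture
import Pool.Agent.MP_5a4599_gt.Princ
import Pool.Agent.MP_c6cf52_lc.Tools

namespace Pool.Agent.MP_5a4599_gt

open Pool.Agent.MP_c6cf52_lc Pool.Agent.MP_c6cf52_lc.Name Pool.Agent.MP_c6cf52_lc.Gen Set Ordinal

theorem wfW : WellFounded (fun a b : W => a < b) := wellFounded_lt

theorem triW (a b : W) : a < b ∨ a = b ∨ b < a := lt_trichotomy a b

noncomputable def o (x : W) : Name PP := ordN wfW x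

noncomputable def w1N : Name PP := setN wfW Set.univ

noncomputable def nN (k : ℕ) : Name PP := ordN natWf ⟨k⟩

noncomputable def omN : Name PP := setN natWf Set.univ

variable {g : Gen PP}

theorem ct_Iio (x : W) : {y | y < x}.Countable := (W.countable_Iic x).mono Iio_subset_Iic_self

theorem E_o {a : W} (h : o a ∈ g.N) {x : g.M} :
    g.E x (g.v (o a)) ↔ ∃ y, y < a ∧ o y ∈ g.N ∧ g.v (o y) = x := E_ordN wfW h

theorem E_w1 (h : w1N ∈ g.N) {x : g.M} :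
    g.E x (g.v w1N) ↔ ∃ y, o y ∈ g.N ∧ g.v (o y) = x := by
  unfold w1N at h ⊢
  rw [E_setN wfW h]
  simp only [mem_univ, true_and]
  rfl

theorem o_lt {a b : W} (ha : o a ∈ g.N) (hb : o b ∈ g.N) :
    g.E (g.v (o a)) (g.v (o b)) ↔ a < b := ord_lt_iff wfW triW ha hb

theorem o_inj {a b : W} (ha : o a ∈ g.N) (hb : o b ∈ g.N) (h : g.v (o a) = g.v (o b)) : a = b :=
  ord_inj wfW triW ha hb h

theorem o_mem {a b : W} (hb : o b ∈ g.N) (hab : a < b) : o a ∈ g.N :=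
  ordN_mem wfW hb (ct_Iio b) hab

theorem o_w1 (h : w1N ∈ g.N) {a : W} (ha : o a ∈ g.N) : g.E (g.v (o a)) (g.v w1N) :=
  (E_w1 h).2 ⟨a, ha, rfl⟩

theorem nN_mem (k : ℕ) : nN k ∈ g.N := nat_mem _

theorem omN_mem : omN ∈ g.N := g.omega_mem

theorem nN_inj {j k : ℕ} (h : g.v (nN j) = g.v (nN k)) : j = k :=
  congrArg ULift.down (ord_inj natWf natTri (nN_mem j) (nN_mem k) h)

theorem nN_lt {j k : ℕ} : g.E (g.v (nN j)) (g.v (nN k)) ↔ j < k :=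
  ord_lt_iff natWf natTri (nN_mem j) (nN_mem k)

theorem E_nN {k : ℕ} {x : g.M} : g.E x (g.v (nN k)) ↔ ∃ j < k, g.v (nN j) = x := by
  unfold nN
  rw [E_ordN natWf (nat_mem _)]
  exact ⟨fun ⟨y, h₁, _, h₂⟩ => ⟨y.down, h₁, h₂⟩, fun ⟨j, h₁, h₂⟩ => ⟨⟨j⟩, h₁, nat_mem _, h₂⟩⟩

theorem E_om {x : g.M} : g.E x (g.v omN) ↔ ∃ j, g.v (nN j) = x := by
  unfold omN
  rw [E_setN natWf g.omega_mem]
  exact ⟨fun ⟨y, _, _, h₂⟩ => ⟨y.down, h₂⟩, fun ⟨j, h₂⟩ => ⟨⟨j⟩, trivial, nat_mem _, h₂⟩⟩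

theorem nN_om (k : ℕ) : g.E (g.v (nN k)) (g.v omN) := E_om.2 ⟨k, rfl⟩

def wom : W := ⟨ω, omega0_lt_omega_one⟩

def wn (n : ℕ) : W := ⟨n, (natCast_lt_omega0 n).trans omega0_lt_omega_one⟩

theorem v_nN (h : o wom ∈ g.N) (n : ℕ) : g.v (nN n) = g.v (o (wn n)) := by
  have hm : ∀ k, o (wn k) ∈ g.N := fun k => o_mem h (natCast_lt_omega0 k)
  induction n using Nat.strong_induction_on with
  | h n ih =>
    refine ext fun x => ?_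
    rw [E_nN, E_o (hm n)]
    constructor
    · rintro ⟨j, hj, rfl⟩
      exact ⟨wn j, (Nat.cast_lt.2 hj : (j : K) < n), hm j, (ih j hj).symm⟩
    · rintro ⟨y, hy, -, rfl⟩
      obtain ⟨j, hj⟩ := lt_omega0.1 ((show y.1 < n from hy).trans (natCast_lt_omega0 n))
      obtain rfl : y = wn j := Subtype.ext hj
      have : j < n := Nat.cast_lt.1 (show (j : K) < n from hy)
      exact ⟨j, this, ih j this⟩

theorem v_om (h : o wom ∈ g.N) : g.v omN = g.v (o wom) := by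
  refine ext fun x => ?_
  rw [E_om, E_o h]
  constructor
  · rintro ⟨j, rfl⟩
    exact ⟨wn j, natCast_lt_omega0 j, o_mem h (natCast_lt_omega0 j), (v_nN h j).symm⟩
  · rintro ⟨y, hy, -, rfl⟩
    obtain ⟨j, hj⟩ := lt_omega0.1 (show y.1 < ω from hy)
    obtain rfl : y = wn j := Subtype.ext hj
    exact ⟨j, v_nN h j⟩

theorem no_card_between (hw : w1N ∈ g.N) (m : g.M) (hm : IsCard g.E m)
    (hom : g.E (g.v omN) m) : ¬ g.E m (g.v w1N) := by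
  intro h
  obtain ⟨y, hy, rfl⟩ := (E_w1 hw).1 h
  refine hm.2 _ hom ?_
  have := (ct_Iio y).to_subtype
  obtain ⟨e, he⟩ := exists_injective_nat {z | z < y}
  let τ : Name PP := relN (fun z : {z | z < y} => o z.1) (fun z => nN (e z)) (fun _ => ⊤)
  refine dens (Ψ := fun _ E w => ∃ f, IsInj E f (w 0) (w 1)) (UDef.ex (UDef.isInj _ _ _))
    (l2 hy omN_mem) fun p _ => ⟨p, le_rfl, {τ}, countable_singleton _, fun g' _ hC hl => ?_⟩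
  have hτ : τ ∈ g'.N := hC rfl
  have hy' : o y ∈ g'.N := hl _ (by simp)
  refine ⟨g'.v τ, ⟨fun p hp => ?_, fun a ha => ?_⟩, fun a a' b h₁ h₂ => ?_⟩
  · obtain ⟨z, -, h₁, h₂, rfl⟩ := (E_relN hτ).1 hp
    exact ⟨_, _, (o_lt h₁ hy').2 z.2, nN_om _, isPair_pr _ _⟩
  · obtain ⟨z, hz, hzN, rfl⟩ := (E_o hy').1 ha
    refine ⟨_, (app_relN hτ).2 ⟨⟨z, hz⟩, g'.top, hzN, nN_mem _, rfl, rfl⟩, fun b hb => ?_⟩
    obtain ⟨z', -, h₁, -, e₁, rfl⟩ := (app_relN hτ).1 hb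
    obtain rfl : z' = ⟨z, hz⟩ := Subtype.ext (o_inj h₁ hzN e₁.symm)
    rfl
  · obtain ⟨z, -, -, -, rfl, rfl⟩ := (app_relN hτ).1 h₁
    obtain ⟨z', -, -, -, rfl, e₂⟩ := (app_relN hτ).1 h₂
    rw [he (nN_inj e₂)]

theorem isCard_w1 (hw : w1N ∈ g.N) : IsCard g.E (g.v w1N) := by
  refine ⟨isOrd_setN wfW triW hw fun _ _ _ _ => trivial, fun a ha ⟨f, hf⟩ => ?_⟩
  obtain ⟨y, hy, rfl⟩ := (E_w1 hw).1 ha
  obtain ⟨σ, hσ, rfl⟩ := exists_v f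
  obtain ⟨p₀, -, H⟩ := transfer (UDef.isInj 0 1 2) (l3 hσ hw hy) hf
  obtain ⟨e, he⟩ := (W.countable_Iic y).exists_eq_range ⟨y, self_mem_Iic⟩
  let F : PP → W → W → Prop := fun r ξ z => ∀ g' : Gen PP, r ∈ g'.G → σ ∈ g'.N → o ξ ∈ g'.N →
    o z ∈ g'.N → App g'.E (g'.v σ) (g'.v (o ξ)) (g'.v (o z))
  have hF : ∀ r r' ξ z, F r ξ z → r' ≤ r → F r' ξ z :=
    fun r r' ξ z h hl g' hg => h g' (g'.up hg hl)
  obtain ⟨q, hq, δ, hδ⟩ := p₀.proper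
    (fun n r ξ => F r ξ (e n) ∨ ∀ r' ≤ r, ∀ ξ', ¬ F r' ξ' (e n)) (by
      rintro n r r' ξ (h | h) hl
      exacts [Or.inl (hF _ _ _ _ h hl), Or.inr fun s hs => h s (hs.trans hl)]) (by
      intro n q _
      by_cases h : ∃ r ≤ q, ∃ ξ, F r ξ (e n)
      · obtain ⟨r, hr, ξ, h⟩ := h
        exact ⟨r, hr, ξ, Or.inl h⟩
      · exact ⟨q, le_rfl, w0, Or.inr fun r hr ξ h' => h ⟨r, hr, ξ, h'⟩⟩)
  obtain ⟨g', hq', hC⟩ := exists_gen q {σ, w1N, o y, o δ} (toFinite _).countable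
  have hf' : IsInj g'.E (g'.v σ) (g'.v w1N) (g'.v (o y)) :=
    H g' (g'.up hq' hq) (l3 (hC (by simp)) (hC (by simp)) (hC (by simp)))
  obtain ⟨b, hb, hab⟩ := fun_ex hf'.1 (o_w1 (hC (by simp)) (hC (by simp) : o δ ∈ g'.N))
  obtain ⟨z, hz, hzN, rfl⟩ := (E_o (hC (by simp))).1 hb
  obtain ⟨r, hr, H'⟩ := transfer_app (hC (by simp)) (hC (by simp)) hzN hab
  obtain ⟨s, -, h₁, h₂⟩ := g'.dir hr hq'
  obtain ⟨n, rfl⟩ : z ∈ range e := he ▸ hz.le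
  obtain ⟨s', h₃, ξ, hξ, h₄ | h₄⟩ := hδ n s h₂
  · obtain ⟨g'', hs', hC'⟩ := exists_gen s' {σ, w1N, o y, o δ, o ξ, o (e n)} (toFinite _).countable
    have hf'' : IsInj g''.E (g''.v σ) (g''.v w1N) (g''.v (o y)) :=
      H g'' (g''.up hs' (h₃.trans (h₂.trans hq)))
        (l3 (hC' (by simp)) (hC' (by simp)) (hC' (by simp)))
    have a₁ := h₄ g'' hs' (hC' (by simp)) (hC' (by simp)) (hC' (by simp))
    have a₂ := H' g'' (g''.up hs' (h₃.trans h₁)) (hC' (by simp)) (hC' (by simp)) (hC' (by simp))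
    exact hξ.ne (o_inj (hC' (by simp)) (hC' (by simp)) (hf''.2 _ _ _ a₁ a₂))
  · exact h₄ s' le_rfl δ (hF _ _ _ _ H' (h₃.trans h₁))

theorem udef_app2 (i j k l : ℕ) : UDef.{2} (fun _ E w => App2 E (w i) (w j) (w k) (w l)) := by
  unfold App2
  exact UDef.ex ((UDef.isPair _ _ _).and (UDef.app _ _ _))

theorem udef_tot2 (i j k l : ℕ) : UDef.{2} (fun _ E w => Tot2 E (w i) (w j) (w k) (w l)) := by
  unfold Tot2
  repeat' first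
    | exact UDef.mem _ _ | exact UDef.eq _ _ | exact udef_app2 _ _ _ _ | apply UDef.and
    | apply UDef.imp | apply UDef.all | apply UDef.ex

theorem transfer_app2 {a b c d : Name PP} (ha : a ∈ g.N) (hb : b ∈ g.N) (hc : c ∈ g.N)
    (hd : d ∈ g.N) (h : App2 g.E (g.v a) (g.v b) (g.v c) (g.v d)) :
    ∃ p ∈ g.G, ∀ g' : Gen PP, p ∈ g'.G → a ∈ g'.N → b ∈ g'.N → c ∈ g'.N → d ∈ g'.N →
      App2 g'.E (g'.v a) (g'.v b) (g'.v c) (g'.v d) := by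
  obtain ⟨p, hp, H⟩ := transfer (udef_app2 0 1 2 3) (l4 ha hb hc hd) h
  exact ⟨p, hp, fun g' hp' ha' hb' hc' hd' => H g' hp' (l4 ha' hb' hc' hd')⟩

/-! ### The dominating real -/

noncomputable def dN (α : K) : Name PP :=
  relN (fun z : {z : ℕ × ℕ × PP // DD α z.2.2 (.eq z.1 z.2.1)} => nN z.1.1) (fun z => nN z.1.2.1)
    (fun z => z.1.2.2)

theorem app_dN {α : K} (h : dN α ∈ g.N) {s t : g.M} : App g.E (g.v (dN α)) s t ↔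
    ∃ n m p, p ∈ g.G ∧ DD α p (.eq n m) ∧ s = g.v (nN n) ∧ t = g.v (nN m) := by
  unfold dN at h ⊢
  rw [app_relN h]
  exact ⟨fun ⟨⟨⟨n, m, p⟩, h₀⟩, h₁, _, _, h₂⟩ => ⟨n, m, p, h₁, h₀, h₂⟩,
    fun ⟨n, m, p, h₁, h₀, h₂⟩ => ⟨⟨⟨n, m, p⟩, h₀⟩, h₁, nN_mem _, nN_mem _, h₂⟩⟩

theorem isFun_dN {α : K} (h : dN α ∈ g.N) : IsFun g.E (g.v (dN α)) (g.v omN) (g.v omN) := by
  constructor
  · intro p hp
    obtain ⟨z, -, -, -, rfl⟩ := (E_relN h).1 hp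
    exact ⟨_, _, nN_om _, nN_om _, isPair_pr _ _⟩
  · intro a ha
    obtain ⟨n, rfl⟩ := E_om.1 ha
    have : ∃ b, App g.E (g.v (dN α)) (g.v (nN n)) b := by
      refine dens (Ψ := fun _ E w => ∃ b, App E (w 0) (w 1) b) (UDef.ex (UDef.app _ _ _))
        (l2 h (nN_mem n)) fun p _ => ?_
      obtain ⟨t, ht, m, hm⟩ := eq_dense α n p
      exact ⟨t, ht, ∅, countable_empty, fun g' ht' _ hl =>
        ⟨_, (app_dN (hl _ (by simp))).2 ⟨n, m, t, ht', hm, rfl, rfl⟩⟩⟩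
    obtain ⟨b, hb⟩ := this
    refine ⟨b, hb, fun b' hb' => ?_⟩
    obtain ⟨n₁, m₁, p₁, h₁, d₁, e₁, rfl⟩ := (app_dN h).1 hb
    obtain ⟨n₂, m₂, p₂, h₂, d₂, e₂, rfl⟩ := (app_dN h).1 hb'
    obtain ⟨r, -, h₃, h₄⟩ := g.dir h₁ h₂
    rw [(d₂.mono h₄).con (d₁.mono h₃) (nN_inj (e₂.symm.trans e₁))]

theorem prB (hw : w1N ∈ g.N) : PrB g.E (g.v omN) (g.v w1N) := by
  intro F hF
  obtain ⟨σ, hσ, rfl⟩ := exists_v F
  obtain ⟨p₀, hp₀, H⟩ := transfer (udef_tot2 0 1 2 2) (l3 hσ hw omN_mem) hF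
  replace H : ∀ g' : Gen PP, p₀ ∈ g'.G → σ ∈ g'.N → w1N ∈ g'.N →
      Tot2 g'.E (g'.v σ) (g'.v w1N) (g'.v omN) (g'.v omN) :=
    fun g' h₁ h₂ h₃ => H g' h₁ (l3 h₂ h₃ omN_mem)
  let R : W → ℕ → ℕ → PP → Prop := fun x n m r => ∀ g' : Gen PP, r ∈ g'.G → σ ∈ g'.N →
    o x ∈ g'.N → App2 g'.E (g'.v σ) (g'.v (o x)) (g'.v (nN n)) (g'.v (nN m))
  have hR : ∀ (g' : Gen PP) x n m, σ ∈ g'.N → o x ∈ g'.N →
      App2 g'.E (g'.v σ) (g'.v (o x)) (g'.v (nN n)) (g'.v (nN m)) → ∃ r ∈ g'.G, R x n m r := by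
    intro g' x n m h₁ h₂ h
    obtain ⟨r, hr, h⟩ := transfer_app2 h₁ h₂ (nN_mem n) (nN_mem m) h
    exact ⟨r, hr, fun g'' a b c => h g'' a b c (nN_mem n) (nN_mem m)⟩
  obtain ⟨α, hα⟩ := dom_dense p₀ R (fun x n m r r' h hl g' hg => h g' (g'.up hg hl)) (by
    intro x n q hq
    obtain ⟨g', hq', hC⟩ := exists_gen q {σ, w1N, o x} (toFinite _).countable
    obtain ⟨m, hm, h, -⟩ := H g' (g'.up hq' hq) (hC (by simp)) (hC (by simp)) _ _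
      (o_w1 (hC (by simp)) (hC (by simp) : o x ∈ g'.N)) (nN_om n)
    obtain ⟨m, rfl⟩ := E_om.1 hm
    obtain ⟨r, hr, h⟩ := hR g' x n m (hC (by simp)) (hC (by simp)) h
    obtain ⟨s, -, h₁, h₂⟩ := g'.dir hr hq'
    exact ⟨s, h₂, m, fun g'' hg => h g'' (g''.up hg h₁)⟩) (by
    intro x n m m' r hr h h'
    obtain ⟨g', hq', hC⟩ := exists_gen r {σ, w1N, o x} (toFinite _).countable
    obtain ⟨k, -, -, hk⟩ := H g' (g'.up hq' hr) (hC (by simp)) (hC (by simp)) _ _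
      (o_w1 (hC (by simp)) (hC (by simp) : o x ∈ g'.N)) (nN_om n)
    exact nN_inj ((hk _ (h g' hq' (hC (by simp)) (hC (by simp)))).trans
      (hk _ (h' g' hq' (hC (by simp)) (hC (by simp)))).symm))
  refine dens (Ψ := fun _ E w => ∃ d, IsFun E d (w 2) (w 2) ∧ ∀ x, E x (w 1) → ∃ N, E N (w 2) ∧
    ∀ n m m', E n (w 2) → ¬ E n N → App2 E (w 0) x n m → App E d n m' → ¬ E m' m) (by
      repeat' first
        | exact UDef.mem _ _ | exact UDef.app _ _ _ | exact UDef.isFun _ _ _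
        | exact udef_app2 _ _ _ _ | apply UDef.and | apply UDef.not
        | apply UDef.imp | apply UDef.all | apply UDef.ex) (l3 hσ hw omN_mem) fun p hp => ?_
  obtain ⟨q, -, h₁, h₂⟩ := g.dir hp hp₀
  refine ⟨q, h₁, {dN α}, countable_singleton _, fun g' hq hC hl =>
    ⟨g'.v (dN α), isFun_dN (hC rfl), fun x hx => ?_⟩⟩
  have hσ' : σ ∈ g'.N := hl _ (by simp)
  have hw' : w1N ∈ g'.N := hl _ (by simp)
  obtain ⟨x, hxN, rfl⟩ := (E_w1 hw').1 hx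
  refine dens (Ψ := fun _ E w => ∃ N, E N (w 2) ∧
    ∀ n m m', E n (w 2) → ¬ E n N → App2 E (w 0) (w 3) n m → App E (w 4) n m' → ¬ E m' m) (by
      repeat' first
        | exact UDef.mem _ _ | exact UDef.app _ _ _
        | exact udef_app2 _ _ _ _ | apply UDef.and | apply UDef.not
        | apply UDef.imp | apply UDef.all | apply UDef.ex)
      (lcons hσ' (l4 hw' omN_mem hxN (hC rfl))) fun p hp => ?_
  obtain ⟨q', -, h₃, h₄⟩ := g'.dir hp hq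
  obtain ⟨t, ht, N, hN⟩ := hα x q' (h₄.trans h₂)
  refine ⟨t, ht.trans h₃, ∅, countable_empty, fun g'' ht' _ hl' =>
    ⟨g''.v (nN N), nN_om N, fun n m m' hn hnN a₁ a₂ => ?_⟩⟩
  have b₁ : σ ∈ g''.N := hl' _ (by simp)
  have b₂ : w1N ∈ g''.N := hl' _ (by simp)
  have b₃ : o x ∈ g''.N := hl' _ (by simp)
  obtain ⟨n', m', p', hp', d₁, rfl, rfl⟩ := (app_dN (hl' _ (by simp))).1 a₂
  obtain ⟨k, hk, -, hk'⟩ := H g'' (g''.up ht' (ht.trans (h₄.trans h₂))) b₁ b₂ _ _ (o_w1 b₂ b₃) hn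
  obtain rfl := hk' m a₁
  obtain ⟨m, rfl⟩ := E_om.1 hk
  obtain ⟨r, hr, h⟩ := hR g'' x n' m b₁ b₃ a₁
  obtain ⟨u, hu, u₁, u₂⟩ := g''.dir hr hp'
  obtain ⟨u', -, u₃, u₄⟩ := g''.dir hu ht'
  rw [nN_lt, not_lt] at hnN ⊢
  exact hN n' hnN m m' u' u₄ (fun g₃ hg => h g₃ (g₃.up hg (u₃.trans u₁))) (d₁.mono (u₃.trans u₂))

/-! ### The club -/

noncomputable def gN (α : K) : Name PP :=
  relN (fun z : {z : W × W × PP // DD α z.2.2 (.gap z.1 z.2.1)} => o z.1.1) (fun z => o z.1.2.1)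
    (fun z => z.1.2.2)

theorem app_gN {α : K} (h : gN α ∈ g.N) {s t : g.M} : App g.E (g.v (gN α)) s t ↔
    ∃ a b p, p ∈ g.G ∧ DD α p (.gap a b) ∧ o a ∈ g.N ∧ o b ∈ g.N ∧
      s = g.v (o a) ∧ t = g.v (o b) := by
  unfold gN at h ⊢
  rw [app_relN h]
  exact ⟨fun ⟨⟨⟨n, m, p⟩, h₀⟩, h₁, h₂⟩ => ⟨n, m, p, h₁, h₀, h₂⟩,
    fun ⟨n, m, p, h₁, h₀, h₂⟩ => ⟨⟨⟨n, m, p⟩, h₀⟩, h₁, h₂⟩⟩

theorem exists_club {α : K} (h : gN α ∈ g.N) (hw : w1N ∈ g.N) :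
    ∃ C, (∀ c, g.E c C → g.E c (g.v w1N)) ∧ (∀ a, g.E a (g.v w1N) → ∃ c, g.E c C ∧ g.E a c) ∧
      (∀ d, g.E d (g.v w1N) → (∃ a, g.E a d) →
        (∀ a, g.E a d → ∃ c, g.E c C ∧ g.E a c ∧ g.E c d) → g.E d C) ∧
      ∀ a b c, App g.E (g.v (gN α)) a b → g.E c C → g.E a c → g.E b c := by
  have hU : UDef.{2} (fun _ E w => ∀ a b, App E (w 1) a b → E a (w 0) → E b (w 0)) := by
    repeat' first
      | exact UDef.mem _ _ | exact UDef.app _ _ _ | apply UDef.imp | apply UDef.all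
  obtain ⟨C, hC⟩ := sep_udef hU [g.v (gN α)] (g.v w1N)
  replace hC : ∀ x, g.E x C ↔ g.E x (g.v w1N) ∧
    ∀ a b, App g.E (g.v (gN α)) a b → g.E a x → g.E b x := hC
  refine ⟨C, fun c hc => ((hC c).1 hc).1, fun a ha => ?_, fun d hd _ H => ?_,
    fun a b c hab hc => ((hC c).1 hc).2 a b hab⟩
  · obtain ⟨x, hx, rfl⟩ := (E_w1 hw).1 ha
    suffices ∃ c, (g.E c (g.v w1N) ∧ ∀ a b, App g.E (g.v (gN α)) a b → g.E a c → g.E b c) ∧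
        g.E (g.v (o x)) c by
      obtain ⟨c, h₁, h₂⟩ := this
      exact ⟨c, (hC c).2 h₁, h₂⟩
    refine dens (Ψ := fun _ E w => ∃ c, (E c (w 1) ∧ ∀ a b, App E (w 0) a b → E a c → E b c) ∧
      E (w 2) c) (by
        repeat' first
          | exact UDef.mem _ _ | exact UDef.app _ _ _ | apply UDef.and | apply UDef.imp
          | apply UDef.all | apply UDef.ex) (l3 h hw hx) fun p _ => ?_
    obtain ⟨t, ht, d, hd, hD⟩ := pt_dense α x p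
    refine ⟨t, ht, {o d}, countable_singleton _, fun g' ht' hC' hl => ⟨g'.v (o d),
      ⟨o_w1 (hl _ (by simp)) (hC' rfl), fun a b hab ha => ?_⟩,
      (o_lt (hl _ (by simp)) (hC' rfl)).2 hd⟩⟩
    obtain ⟨a, b, p', hp', d₁, h₁, h₂, rfl, rfl⟩ := (app_gN (hl _ (by simp))).1 hab
    obtain ⟨u, -, u₁, u₂⟩ := g'.dir hp' ht'
    rw [o_lt h₁ (hC' rfl)] at ha
    rw [o_lt h₂ (hC' rfl)]
    exact not_le.1 fun h' => (hD.mono u₂).con (d₁.mono u₁) ⟨ha, h'⟩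
  · refine (hC d).2 ⟨hd, fun a b hab ha => ?_⟩
    obtain ⟨c, hc, h₁, h₂⟩ := H a ha
    obtain ⟨x, hx, rfl⟩ := (E_w1 hw).1 hd
    obtain ⟨y, hy, hyN, rfl⟩ := (E_o hx).1 h₂
    obtain ⟨z, hz, hzN, rfl⟩ := (E_o hyN).1 (((hC _).1 hc).2 a b hab h₁)
    exact (o_lt hzN hx).2 (hz.trans hy)

def StarHyp {M : Type 2} (E : M → M → Prop) (A B om w1 : M) : Prop :=
  Tot2 E A w1 om w1 ∧ Tot2 E B w1 om w1 ∧
    ∀ x n, E x w1 → E n om → ∃ N, E N om ∧ ∀ n' a b, E n' om → ¬ E n' N →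
      App2 E A x n' a → App2 E B x n b → ¬ E a b

theorem udef_starHyp : UDef.{2} (fun _ E w => StarHyp E (w 0) (w 1) (w 2) (w 3)) := by
  unfold StarHyp
  repeat' first
    | exact UDef.mem _ _ | exact udef_tot2 _ _ _ _ | exact udef_app2 _ _ _ _ | apply UDef.and
    | apply UDef.not | apply UDef.imp | apply UDef.all | apply UDef.ex

theorem star_pick {A B : g.M} (hw : w1N ∈ g.N) (h : StarHyp g.E A B (g.v omN) (g.v w1N)) {x : W}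
    (hx : o x ∈ g.N) (N : ℕ) {s : Set W} (hs : s.Finite) :
    ∃ n, N ≤ n ∧ ∃ a b, o a ∈ g.N ∧ o b ∈ g.N ∧ App2 g.E A (g.v (o x)) (g.v (nN n)) (g.v (o a)) ∧
      App2 g.E B (g.v (o x)) (g.v (nN n)) (g.v (o b)) ∧ ∀ d ∈ s, ¬ (a < d ∧ d ≤ b) := by
  have hA : ∀ n, ∃ a, o a ∈ g.N ∧ App2 g.E A (g.v (o x)) (g.v (nN n)) (g.v (o a)) := by
    intro n
    obtain ⟨m, hm, h₁, -⟩ := h.1 _ _ (o_w1 hw hx) (nN_om n)
    obtain ⟨a, ha, rfl⟩ := (E_w1 hw).1 hm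
    exact ⟨a, ha, h₁⟩
  have hB : ∀ n, ∃ a, o a ∈ g.N ∧ App2 g.E B (g.v (o x)) (g.v (nN n)) (g.v (o a)) := by
    intro n
    obtain ⟨m, hm, h₁, -⟩ := h.2.1 _ _ (o_w1 hw hx) (nN_om n)
    obtain ⟨a, ha, rfl⟩ := (E_w1 hw).1 hm
    exact ⟨a, ha, h₁⟩
  choose a ha using hA
  choose b hb using hB
  have ev : ∀ d ∈ s, ∀ᶠ n in Filter.atTop, ¬ (a n < d ∧ d ≤ b n) := by
    intro d _
    by_cases h' : ∃ m, d ≤ b m
    · obtain ⟨m, hm⟩ := h'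
      obtain ⟨N', hN', H⟩ := h.2.2 _ _ (o_w1 hw hx) (nN_om m)
      obtain ⟨N', rfl⟩ := E_om.1 hN'
      filter_upwards [Filter.eventually_ge_atTop N'] with n hn h₁
      exact H _ _ _ (nN_om n) (by rw [nN_lt]; omega) (ha n).2 (hb m).2
        ((o_lt (ha n).1 (hb m).1).2 (h₁.1.trans_le hm))
    · exact Filter.Eventually.of_forall fun n h₁ => h' ⟨n, h₁.2⟩
  obtain ⟨n, h₁, h₂⟩ := (((Filter.eventually_all_finite hs).2 ev).and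
    (Filter.eventually_ge_atTop N)).exists
  exact ⟨n, h₂, a n, b n, (ha n).1, (hb n).1, (ha n).2, (hb n).2, h₁⟩

theorem prStar (hw : w1N ∈ g.N) : PrStar g.E (g.v omN) (g.v w1N) := by
  intro A B hA hB _ hH
  obtain ⟨σ, hσ, rfl⟩ := exists_v A
  obtain ⟨τ, hτ, rfl⟩ := exists_v B
  obtain ⟨p₀, hp₀, H⟩ := transfer udef_starHyp (l4 hσ hτ omN_mem hw) ⟨hA, hB, hH⟩
  replace H : ∀ g' : Gen PP, p₀ ∈ g'.G → σ ∈ g'.N → τ ∈ g'.N → w1N ∈ g'.N →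
      StarHyp g'.E (g'.v σ) (g'.v τ) (g'.v omN) (g'.v w1N) :=
    fun g' h₁ h₂ h₃ h₄ => H g' h₁ (l4 h₂ h₃ omN_mem h₄)
  let R : W → ℕ → W → W → PP → Prop := fun x n a b r => ∀ g' : Gen PP, r ∈ g'.G → σ ∈ g'.N →
    τ ∈ g'.N → o x ∈ g'.N → o a ∈ g'.N → o b ∈ g'.N →
      App2 g'.E (g'.v σ) (g'.v (o x)) (g'.v (nN n)) (g'.v (o a)) ∧
      App2 g'.E (g'.v τ) (g'.v (o x)) (g'.v (nN n)) (g'.v (o b))
  obtain ⟨α, hα⟩ := gap_dense p₀ R (fun x n a b r r' h hl g' hg => h g' (g'.up hg hl)) (by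
    intro x N s hs q hq
    obtain ⟨g', hq', hC⟩ := exists_gen q {σ, τ, w1N, o x} (toFinite _).countable
    have b₁ : σ ∈ g'.N := hC (by simp)
    have b₂ : τ ∈ g'.N := hC (by simp)
    have b₃ : w1N ∈ g'.N := hC (by simp)
    have b₄ : o x ∈ g'.N := hC (by simp)
    obtain ⟨n, hn, a, b, ha, hb, h₁, h₂, h₃⟩ :=
      star_pick b₃ (H g' (g'.up hq' hq) b₁ b₂ b₃) b₄ N hs
    obtain ⟨r₁, hr₁, h₁⟩ := transfer_app2 b₁ b₄ (nN_mem n) ha h₁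
    obtain ⟨r₂, hr₂, h₂⟩ := transfer_app2 b₂ b₄ (nN_mem n) hb h₂
    obtain ⟨u, hu, u₁, u₂⟩ := g'.dir hr₁ hr₂
    obtain ⟨u', -, u₃, u₄⟩ := g'.dir hu hq'
    exact ⟨u', u₄, n, hn, a, b, fun g'' c₀ c₁ c₂ c₃ c₄ c₅ =>
      ⟨h₁ g'' (g''.up c₀ (u₃.trans u₁)) c₁ c₃ (nN_mem n) c₄,
        h₂ g'' (g''.up c₀ (u₃.trans u₂)) c₂ c₃ (nN_mem n) c₅⟩, h₃⟩)
  refine dens (Ψ := fun _ E w => ∃ C, (∀ c, E c C → E c (w 3)) ∧
      (∀ a, E a (w 3) → ∃ c, E c C ∧ E a c) ∧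
      (∀ d, E d (w 3) → (∃ a, E a d) → (∀ a, E a d → ∃ c, E c C ∧ E a c ∧ E c d) → E d C) ∧
      ∀ x N, E x (w 3) → E N (w 2) → ∃ n, E n (w 2) ∧ ¬ E n N ∧
        ∀ a b c, App2 E (w 0) x n a → App2 E (w 1) x n b → E c C → E a c → E b c) (by
      repeat' first
        | exact UDef.mem _ _ | exact udef_app2 _ _ _ _ | apply UDef.and | apply UDef.not
        | apply UDef.imp | apply UDef.all | apply UDef.ex) (l4 hσ hτ omN_mem hw) fun p hp => ?_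
  obtain ⟨q, -, h₁, h₂⟩ := g.dir hp hp₀
  refine ⟨q, h₁, {gN α}, countable_singleton _, fun g' hq hC hl => ?_⟩
  have hσ' : σ ∈ g'.N := hl _ (by simp)
  have hτ' : τ ∈ g'.N := hl _ (by simp)
  have hw' : w1N ∈ g'.N := hl _ (by simp)
  obtain ⟨C, c₁, c₂, c₃, c₄⟩ := exists_club (hC rfl : gN α ∈ g'.N) hw'
  refine ⟨C, c₁, c₂, c₃, fun x N hx hN => ?_⟩
  have hS := H g' (g'.up hq h₂) hσ' hτ' hw'
  obtain ⟨x, hxN, rfl⟩ := (E_w1 hw').1 hx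
  obtain ⟨N, rfl⟩ := E_om.1 hN
  suffices ∃ n, g'.E n (g'.v omN) ∧ ¬ g'.E n (g'.v (nN N)) ∧ ∃ a b,
      App2 g'.E (g'.v σ) (g'.v (o x)) n a ∧ App2 g'.E (g'.v τ) (g'.v (o x)) n b ∧
        App g'.E (g'.v (gN α)) a b by
    obtain ⟨n, d₁, d₂, a, b, d₃, d₄, d₅⟩ := this
    refine ⟨n, d₁, d₂, fun a' b' c e₁ e₂ => ?_⟩
    obtain ⟨_, -, -, u₁⟩ := hS.1 _ _ hx d₁
    obtain ⟨_, -, -, u₂⟩ := hS.2.1 _ _ hx d₁
    rw [(u₁ _ e₁).trans (u₁ _ d₃).symm, (u₂ _ e₂).trans (u₂ _ d₄).symm]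
    exact c₄ a b c d₅
  refine dens (Ψ := fun _ E w => ∃ n, E n (w 2) ∧ ¬ E n (w 3) ∧ ∃ a b,
      App2 E (w 0) (w 4) n a ∧ App2 E (w 1) (w 4) n b ∧ App E (w 5) a b) (by
      repeat' first
        | exact UDef.mem _ _ | exact UDef.app _ _ _ | exact udef_app2 _ _ _ _ | apply UDef.and
        | apply UDef.not | apply UDef.ex)
      (lcons hσ' (lcons hτ' (l4 omN_mem (nN_mem N) hxN (hC rfl)))) fun p hp => ?_
  obtain ⟨q', -, h₃, h₄⟩ := g'.dir hp hq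
  obtain ⟨t, ht, n, hn, a, b, hR, hD⟩ := hα x N q' (h₄.trans h₂)
  refine ⟨t, ht.trans h₃, {o a, o b}, (toFinite _).countable, fun g'' ht' hC' hl' => ?_⟩
  have ha : o a ∈ g''.N := hC' (by simp)
  have hb : o b ∈ g''.N := hC' (by simp)
  obtain ⟨e₁, e₂⟩ := hR g'' ht' (hl' _ (by simp)) (hl' _ (by simp)) (hl' _ (by simp)) ha hb
  exact ⟨g''.v (nN n), nN_om n, fun h => absurd (nN_lt.1 h) (not_lt.2 hn), _, _, e₁, e₂,
    (app_gN (hl' _ (by simp))).2 ⟨a, b, t, ht', hD, ha, hb, rfl, rfl⟩⟩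

theorem exists_model : ∃ (g : Gen PP) (w1 : g.M), IsCard g.E w1 ∧
    g.E (g.v (setN natWf Set.univ)) w1 ∧
    (∀ m, IsCard g.E m → g.E (g.v (setN natWf Set.univ)) m → ¬ g.E m w1) ∧
    PrB g.E (g.v (setN natWf Set.univ)) w1 ∧ PrStar g.E (g.v (setN natWf Set.univ)) w1 := by
  obtain ⟨g, -, hC⟩ := exists_gen (⊤ : PP) {w1N, o wom} (toFinite _).countable
  have hw : w1N ∈ g.N := hC (by simp)
  have ho : o wom ∈ g.N := hC (by simp)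
  refine ⟨g, g.v w1N, isCard_w1 hw, ?_, no_card_between hw, prB hw, prStar hw⟩
  change g.E (g.v omN) _
  rw [v_om ho]
  exact o_w1 hw ho

end Pool.Agent.MP_5a4599_gt
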