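import Mathlib

namespace Pool.Agent.MP_5a4599_gt

open Set Ordinal

/-- Positions of the iteration. -/
abbrev K : Type 1 := Ordinal.{0}

/-- Countable ordinals. -/
abbrev W : Type 1 := Set.Iio (ω₁ : Ordinal.{0})

/-- Atomic pieces of information about one generic object. -/
inductive Atom : Type 1
  | pt (d : W) : Atom
  | gap (a b : W) : Atom
  | eq (n m : ℕ) : Atom
  | ge (n m : ℕ) : Atom

instance : Small.{0} Atom :=
  small_of_surjective (f := (Sum.elim (Sum.elim Atom.pt (fun x : W × W => Atom.gap x.1 x.2))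
    (Sum.elim (fun x : ℕ × ℕ => Atom.eq x.1 x.2) (fun x : ℕ × ℕ => Atom.ge x.1 x.2)))) (by
    rintro (d | ⟨a, b⟩ | ⟨n, m⟩ | ⟨n, m⟩)
    exacts [⟨.inl (.inl d), rfl⟩, ⟨.inl (.inr (a, b)), rfl⟩, ⟨.inr (.inl (n, m)), rfl⟩,
      ⟨.inr (.inr (n, m)), rfl⟩])

def Con : Atom → Atom → Prop
  | .pt d, .gap a b => ¬ (a < d ∧ d ≤ b)
  | .gap a b, .pt d => ¬ (a < d ∧ d ≤ b)
  | .eq n m, .eq n' m' => n = n' → m = m'
  | .eq n m, .ge n' m' => n = n' → m' ≤ m
  | .ge n' m', .eq n m => n = n' → m' ≤ m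
  | _, _ => True

theorem Con.symm {a b : Atom} (h : Con a b) : Con b a := by
  cases a <;> cases b <;> simp_all [Con]

def cl : Atom → ℕ
  | .ge n _ => n + 1
  | _ => 0

inductive Pre : Type 1
  | mk (ι : Type) (co : ι → K) (c : ι → Pre) (a : ι → Atom) : Pre

def Pre.ent : Pre → Set (K × Pre × Atom)
  | .mk _ co c a => range fun i => (co i, c i, a i)

instance (p : Pre) : Small.{0} p.ent := by
  cases p; exact small_range _

open Classical in
noncomputable def canon (X : Set (K × Pre × Atom)) : Pre :=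
  if _h : Small.{0} X then
    .mk (Shrink.{0} X) (fun i => ((equivShrink X).symm i).1.1)
      (fun i => ((equivShrink X).symm i).1.2.1) (fun i => ((equivShrink X).symm i).1.2.2)
  else .mk PEmpty PEmpty.elim PEmpty.elim PEmpty.elim

theorem ent_canon {X : Set (K × Pre × Atom)} (h : Small.{0} X) : (canon X).ent = X := by
  unfold canon
  rw [dif_pos h]
  ext x
  simp only [Pre.ent, mem_range, Prod.mk.eta]
  constructor
  · rintro ⟨i, rfl⟩; exact Subtype.prop _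
  · intro hx; exact ⟨equivShrink X ⟨x, hx⟩, by simp⟩

structure St where
  V : Pre → Prop
  L : Pre → Pre → Prop

def DecOf (s : St) (β : K) (p r : Pre) (a : Atom) : Prop :=
  ∀ r', s.V r' → s.L r' r → ∃ r'', s.V r'' ∧ s.L r'' r' ∧ ∃ c, (β, c, a) ∈ p.ent ∧ s.L r'' c

def GoodOf (s : St) (β : K) (p : Pre) : Prop :=
  ∀ r, s.V r → s.L r p → (∀ a b, DecOf s β p r a → DecOf s β p r b → Con a b) ∧
    ∀ k, ∃ r', s.V r' ∧ s.L r' r ∧ ∃ T : Set Atom, T.Finite ∧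
      ∀ r'', s.V r'' → s.L r'' r' → ∀ a, cl a = k → DecOf s β p r'' a → a ∈ T

noncomputable def st : K → St :=
  (wellFounded_lt (α := K)).fix fun α ih =>
    ⟨fun p => {β | ∃ h : β < α, ∃ r a, (ih β h).V r ∧ DecOf (ih β h) β p r a}.Countable ∧
        ∀ β (h : β < α), GoodOf (ih β h) β p,
      fun q p => ∀ β (h : β < α), ∀ r, (ih β h).V r → (ih β h).L r q →
        ∀ a, DecOf (ih β h) β p r a → DecOf (ih β h) β q r a⟩

def V (α : K) (p : Pre) : Prop := (st α).V p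
def L (α : K) (q p : Pre) : Prop := (st α).L q p
def Dec (β : K) (p r : Pre) (a : Atom) : Prop := DecOf (st β) β p r a
def Good (β : K) (p : Pre) : Prop := GoodOf (st β) β p
def supp (p : Pre) : Set K := {β | ∃ r a, V β r ∧ Dec β p r a}

theorem Dec_def {β : K} {p r : Pre} {a : Atom} : Dec β p r a ↔
    ∀ r', V β r' → L β r' r → ∃ r'', V β r'' ∧ L β r'' r' ∧
      ∃ c, (β, c, a) ∈ p.ent ∧ L β r'' c := Iff.rfl

theorem Good_def {β : K} {p : Pre} : Good β p ↔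
    ∀ r, V β r → L β r p → (∀ a b, Dec β p r a → Dec β p r b → Con a b) ∧
      ∀ k, ∃ r', V β r' ∧ L β r' r ∧ ∃ T : Set Atom, T.Finite ∧
        ∀ r'', V β r'' → L β r'' r' → ∀ a, cl a = k → Dec β p r'' a → a ∈ T := Iff.rfl

theorem V_iff {α : K} {p : Pre} :
    V α p ↔ (supp p ∩ Iio α).Countable ∧ ∀ β < α, Good β p := by
  unfold V
  conv_lhs => unfold st; rw [WellFounded.fix_eq]
  have : supp p ∩ Iio α =
      {β | ∃ _ : β < α, ∃ r a, (st β).V r ∧ DecOf (st β) β p r a} := by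
    ext β; simp only [supp, mem_inter_iff, mem_ofPred_eq, mem_Iio, exists_prop]
    exact and_comm
  rw [this]
  rfl

theorem L_iff {α : K} {q p : Pre} :
    L α q p ↔ ∀ β < α, ∀ r, V β r → L β r q → ∀ a, Dec β p r a → Dec β q r a := by
  unfold L
  conv_lhs => unfold st; rw [WellFounded.fix_eq]
  rfl

theorem V.mono {α β : K} {p : Pre} (h : V α p) (hβ : β ≤ α) : V β p := by
  rw [V_iff] at h ⊢
  exact ⟨h.1.mono (inter_subset_inter_right _ (Iio_subset_Iio hβ)),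
    fun γ hγ => h.2 γ (hγ.trans_le hβ)⟩

theorem L.mono {α β : K} {q p : Pre} (h : L α q p) (hβ : β ≤ α) : L β q p := by
  rw [L_iff] at h ⊢
  exact fun γ hγ => h γ (hγ.trans_le hβ)

theorem L.rfl {α : K} {p : Pre} : L α p p := L_iff.2 fun _ _ _ _ _ _ h => h

theorem L.trans {α : K} : ∀ {r q p : Pre}, L α r q → L α q p → L α r p := by
  induction α using WellFoundedLT.induction with
  | ind α ih =>
    intro r q p h₁ h₂
    rw [L_iff]
    intro β hβ s hs hsr a ha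
    exact L_iff.1 h₁ β hβ s hs hsr a
      (L_iff.1 h₂ β hβ s hs (ih β hβ hsr (h₁.mono hβ.le)) a ha)

theorem L.dec {α β : K} {q p r : Pre} {a : Atom} (h : L α q p) (hβ : β < α) (hr : V β r)
    (hrq : L β r q) (ha : Dec β p r a) : Dec β q r a := L_iff.1 h β hβ r hr hrq a ha

theorem V.good {α β : K} {p : Pre} (h : V α p) (hβ : β < α) : Good β p := (V_iff.1 h).2 β hβ

theorem Dec.mono {β : K} {p r r' : Pre} {a : Atom} (h : Dec β p r a) (hr : L β r' r) :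
    Dec β p r' a := fun s hs hsr => h s hs (L.trans hsr hr)

/-- Densely many extensions satisfy `Φ`. -/
def Dns (β : K) (r : Pre) (Φ : Pre → Prop) : Prop :=
  ∀ r', V β r' → L β r' r → ∃ r'', V β r'' ∧ L β r'' r' ∧ Φ r''

theorem Dns.mono {β : K} {r r' : Pre} {Φ : Pre → Prop} (h : Dns β r Φ) (hr : L β r' r) :
    Dns β r' Φ := fun s hs hsr => h s hs (L.trans hsr hr)

theorem Dns.imp {β : K} {r : Pre} {Φ Ψ : Pre → Prop} (h : Dns β r Φ)
    (H : ∀ s, V β s → L β s r → Φ s → Ψ s) : Dns β r Ψ := by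
  intro s hs hsr
  obtain ⟨t, ht, hts, h⟩ := h s hs hsr
  exact ⟨t, ht, hts, H t ht (hts.trans hsr) h⟩

theorem Dns.of_all {β : K} {r : Pre} {Φ : Pre → Prop} (H : ∀ s, V β s → L β s r → Φ s) :
    Dns β r Φ := fun s hs hsr => ⟨s, hs, L.rfl, H s hs hsr⟩

theorem Dns.join {β : K} {r : Pre} {Φ : Pre → Prop} (h : Dns β r fun s => Dns β s Φ) :
    Dns β r Φ := by
  intro s hs hsr
  obtain ⟨t, ht, hts, h⟩ := h s hs hsr
  obtain ⟨u, hu, hut, h⟩ := h t ht L.rfl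
  exact ⟨u, hu, hut.trans hts, h⟩

theorem Dec.reg {β : K} {p r : Pre} {a : Atom} (h : Dns β r fun s => Dec β p s a) :
    Dec β p r a := Dns.join (Φ := fun r'' => ∃ c, (β, c, a) ∈ p.ent ∧ L β r'' c) h

/-- `p` and `q` agree at position `β`. -/
def Agr (β : K) (p q : Pre) : Prop := ∀ r a, V β r → (Dec β p r a ↔ Dec β q r a)

theorem Agr.symm {β : K} {p q : Pre} (h : Agr β p q) : Agr β q p :=
  fun r a hr => (h r a hr).symm

theorem Agr.trans {β : K} {p q s : Pre} (h : Agr β p q) (h' : Agr β q s) : Agr β p s :=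
  fun r a hr => (h r a hr).trans (h' r a hr)

theorem Agr.rfl {β : K} {p : Pre} : Agr β p p := fun _ _ _ => Iff.rfl

theorem L_of_agr {α : K} {p q : Pre} (h : ∀ β < α, Agr β p q) : L α p q :=
  L_iff.2 fun β hβ r hr _ a ha => (h β hβ r a hr).2 ha

theorem L_of_agr' {α : K} {p q : Pre} (h : ∀ β < α, Agr β p q) : L α q p :=
  L_of_agr fun β hβ => (h β hβ).symm

theorem Good.of_agr {β : K} {p q : Pre} (h : Good β p) (hl : L β q p) (ha : Agr β q p) :
    Good β q := by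
  intro r hr hrq
  obtain ⟨h₁, h₂⟩ := h r hr (L.trans hrq hl)
  refine ⟨fun a b h₃ h₄ => h₁ a b ((ha r a hr).1 h₃) ((ha r b hr).1 h₄), fun k => ?_⟩
  obtain ⟨r', hr', hl', T, hT, H⟩ := h₂ k
  exact ⟨r', hr', hl', T, hT, fun s hs hsr a hk h => H s hs hsr a hk ((ha s a hs).1 h)⟩

theorem mem_supp_of_agr {β : K} {p q : Pre} (ha : Agr β p q) (h : β ∈ supp p) : β ∈ supp q := by
  obtain ⟨r, a, hr, h⟩ := h
  exact ⟨r, a, hr, (ha r a hr).1 h⟩

theorem V.of_agr {α : K} {p q : Pre} (h : V α p) (ha : ∀ β < α, Agr β q p) : V α q := by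
  rw [V_iff] at h ⊢
  refine ⟨h.1.mono fun β hβ => mem_inter (mem_supp_of_agr (ha β hβ.2) hβ.1) hβ.2, fun β hβ => ?_⟩
  exact (h.2 β hβ).of_agr (L_of_agr fun γ hγ => ha γ (hγ.trans hβ)) (ha β hβ)

theorem not_dec_of_notMem_supp {β : K} {p r : Pre} {a : Atom} (h : β ∉ supp p) (hr : V β r) :
    ¬ Dec β p r a := fun h' => h ⟨r, a, hr, h'⟩

theorem good_of_notMem_supp {β : K} {p : Pre} (h : β ∉ supp p) : Good β p := by
  intro r hr _
  refine ⟨fun a _ ha _ => absurd ha (not_dec_of_notMem_supp h hr), fun k => ?_⟩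
  exact ⟨r, hr, L.rfl, ∅, finite_empty,
    fun s hs _ a _ ha => absurd ha (not_dec_of_notMem_supp h hs)⟩

theorem exists_bound (p : Pre) : ∃ α : K, supp p ⊆ Iio α := by
  obtain ⟨α, hα⟩ : BddAbove (Prod.fst '' p.ent) := Ordinal.bddAbove_of_small
  refine ⟨Order.succ α, fun β ⟨r, a, hr, h⟩ => ?_⟩
  obtain ⟨s, -, -, c, hc, -⟩ := h r hr L.rfl
  exact Order.lt_succ_iff.2 (hα ⟨_, hc, rfl⟩)

/-! ### Normal forms -/

noncomputable def S : K → Set Pre :=
  (wellFounded_lt (α := K)).fix fun α ih =>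
    canon '' {X | ∀ x ∈ X, ∃ h : x.1 < α, x.2.1 ∈ ih x.1 h}

theorem S_eq (α : K) : S α = canon '' {X | ∀ x ∈ X, x.1 < α ∧ x.2.1 ∈ S x.1} := by
  conv_lhs => unfold S; rw [WellFounded.fix_eq]
  simp only [exists_prop]
  rfl

theorem small_base {α : K} (ih : ∀ β < α, Small.{0} (S β)) :
    Small.{0} {x : K × Pre × Atom | x.1 < α ∧ x.2.1 ∈ S x.1} := by
  have : ∀ β : Iio α, Small.{0} (S β.1) := fun β => ih β.1 β.2
  refine small_of_surjective (f := fun y : Σ β : Iio α, S β.1 × Atom =>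
    (⟨(y.1.1, y.2.1.1, y.2.2), y.1.2, y.2.1.2⟩ :
      {x : K × Pre × Atom | x.1 < α ∧ x.2.1 ∈ S x.1})) ?_
  rintro ⟨⟨β, c, a⟩, h₁, h₂⟩
  exact ⟨⟨⟨β, h₁⟩, ⟨c, h₂⟩, a⟩, rfl⟩

theorem small_S (α : K) : Small.{0} (S α) := by
  induction α using WellFoundedLT.induction with
  | ind α ih =>
    rw [S_eq]
    have := small_base ih
    have h : Small.{0} (𝒫 {x : K × Pre × Atom | x.1 < α ∧ x.2.1 ∈ S x.1}) := inferInstance
    exact @small_image _ _ _ _ h

theorem exists_cond_aux {α : K}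
    (nf : ∀ β < α, ∀ r, V β r → ∃ s ∈ S β, ∀ γ < β, Agr γ s r) (Φ : K → Pre → Atom → Prop)
    (hΦ : ∀ β r r' a, Φ β r a → V β r' → L β r' r → Φ β r' a) :
    ∃ p ∈ S α, ∀ β r a, V β r → (Dec β p r a ↔ β < α ∧ Dns β r fun s => Φ β s a) := by
  let X : Set (K × Pre × Atom) :=
    {x | (x.1 < α ∧ x.2.1 ∈ S x.1) ∧ V x.1 x.2.1 ∧ Φ x.1 x.2.1 x.2.2}
  have hX : Small.{0} X := by
    have := small_base (α := α) fun β _ => small_S β
    exact small_subset (t := X) (s := {x : K × Pre × Atom | x.1 < α ∧ x.2.1 ∈ S x.1})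
      fun x hx => hx.1
  refine ⟨canon X, S_eq α ▸ ⟨X, fun x hx => hx.1, rfl⟩, fun β r a hr => ?_⟩
  rw [Dec_def, ent_canon hX]
  constructor
  · intro h
    obtain ⟨-, -, -, c, hc, -⟩ := h r hr L.rfl
    refine ⟨hc.1.1, fun s hs hsr => ?_⟩
    obtain ⟨t, ht, hts, c, hc, htc⟩ := h s hs hsr
    exact ⟨t, ht, hts, hΦ β c t a hc.2.2 ht htc⟩
  · rintro ⟨hβ, h⟩ s hs hsr
    obtain ⟨t, ht, hts, h⟩ := h s hs hsr
    obtain ⟨c, hc, hct⟩ := nf β hβ t ht
    exact ⟨t, ht, hts, c, ⟨⟨hβ, hc⟩, ht.of_agr hct, hΦ β t c a h (ht.of_agr hct) (L_of_agr hct)⟩,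
      L_of_agr' hct⟩

theorem dns_dec_iff {β : K} {p r : Pre} {a : Atom} :
    (Dns β r fun s => Dec β p s a) ↔ Dec β p r a :=
  ⟨Dec.reg, fun h => Dns.of_all fun _ _ hs => h.mono hs⟩

theorem exists_nf_aux (α : K) : ∀ r, ∃ s ∈ S α, ∀ γ < α, Agr γ s r := by
  induction α using WellFoundedLT.induction with
  | ind α ih =>
    intro r
    obtain ⟨p, hp, h⟩ := exists_cond_aux (α := α) (fun β hβ r _ => ih β hβ r)
      (fun β s a => Dec β r s a) (fun β s s' a h _ hl => h.mono hl)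
    exact ⟨p, hp, fun γ hγ s a hs => by rw [h γ s a hs, dns_dec_iff]; simp [hγ]⟩

/-- Conditions can be given by arbitrary monotone relations. -/
theorem exists_cond (α : K) (Φ : K → Pre → Atom → Prop)
    (hΦ : ∀ β r r' a, Φ β r a → V β r' → L β r' r → Φ β r' a) :
    ∃ p ∈ S α, ∀ β r a, V β r → (Dec β p r a ↔ β < α ∧ Dns β r fun s => Φ β s a) :=
  exists_cond_aux (fun β _ r _ => exists_nf_aux β r) Φ hΦ

/-- Restriction in normal form. -/
theorem exists_nf (α : K) (r : Pre) : ∃ s ∈ S α, (∀ γ < α, Agr γ s r) ∧ supp s ⊆ Iio α := by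
  obtain ⟨p, hp, h⟩ := exists_cond α (fun β s a => Dec β r s a) (fun β s s' a h _ hl => h.mono hl)
  refine ⟨p, hp, fun γ hγ s a hs => by rw [h γ s a hs, dns_dec_iff]; simp [hγ], ?_⟩
  rintro β ⟨s, a, hs, h'⟩
  exact ((h β s a hs).1 h').1

/-- Change of one coordinate. -/
theorem exists_modify (β : K) (r s : Pre) (Φ : Pre → Atom → Prop)
    (hΦ : ∀ x x' a, Φ x a → V β x' → L β x' x → Φ x' a) :
    ∃ t, (∀ γ < β, Agr γ t r) ∧ (∀ x a, V β x → (Dec β t x a ↔ Dns β x fun y => Φ y a)) ∧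
      ∀ γ, β < γ → Agr γ t s := by
  obtain ⟨α₀, h₀⟩ := exists_bound s
  obtain ⟨t, -, h⟩ := exists_cond (max α₀ (Order.succ β))
    (fun γ x a => (γ < β ∧ Dec γ r x a) ∨ (γ = β ∧ Φ x a) ∨ (β < γ ∧ Dec γ s x a)) (by
      rintro γ x x' a (⟨h₁, h₂⟩ | ⟨rfl, h₂⟩ | ⟨h₁, h₂⟩) hx hl
      exacts [Or.inl ⟨h₁, h₂.mono hl⟩, Or.inr (Or.inl ⟨rfl, hΦ _ _ _ h₂ hx hl⟩),
        Or.inr (Or.inr ⟨h₁, h₂.mono hl⟩)])
  have hβ : β < max α₀ (Order.succ β) := lt_max_of_lt_right (Order.lt_succ β)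
  refine ⟨t, fun γ hγ x a hx => ?_, fun x a hx => ?_, fun γ hγ x a hx => ?_⟩
  · rw [h γ x a hx]
    simp only [hγ, hγ.ne, hγ.not_gt, hγ.trans hβ, true_and, false_and, or_false, dns_dec_iff]
  · rw [h β x a hx]
    simp only [hβ, lt_irrefl, true_and, false_and, or_false, false_or]
  · rw [h γ x a hx]
    simp only [hγ, hγ.ne', hγ.not_gt, true_and, false_and, false_or, dns_dec_iff]
    exact ⟨fun h => h.2, fun h => ⟨lt_max_of_lt_left (h₀ ⟨x, a, hx, h⟩), h⟩⟩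

theorem modify_le {α β : K} {r s t : Pre} (hrs : L β r s) (h₁ : ∀ γ < β, Agr γ t r)
    (h₂ : ∀ x a, V β x → L β x r → Dec β s x a → Dec β t x a) (h₃ : ∀ γ, β < γ → Agr γ t s) :
    L α t s := by
  rw [L_iff]
  intro γ _ x hx hxt a ha
  rcases lt_trichotomy γ β with h | rfl | h
  · refine (h₁ γ h x a hx).2 (hrs.dec h hx ?_ ha)
    exact hxt.trans (L_of_agr fun δ hδ => h₁ δ (hδ.trans h))
  · exact h₂ x a hx (hxt.trans (L_of_agr h₁)) ha
  · exact (h₃ γ h x a hx).2 ha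

theorem modify_valid {α β : K} {r s t : Pre} (hr : V β r) (hs : V α s) (hrs : L β r s)
    (h₁ : ∀ γ < β, Agr γ t r)
    (h₂ : ∀ x a, V β x → L β x r → Dec β s x a → Dec β t x a) (h₃ : ∀ γ, β < γ → Agr γ t s)
    (hg : β < α → Good β t) : V α t := by
  rw [V_iff]
  constructor
  · refine (((V_iff.1 hr).1.union (countable_singleton β)).union (V_iff.1 hs).1).mono ?_
    rintro γ ⟨hγ, hγα⟩
    rcases lt_trichotomy γ β with h | rfl | h
    · exact Or.inl (Or.inl ⟨mem_supp_of_agr (h₁ γ h) hγ, h⟩)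
    · exact Or.inl (Or.inr rfl)
    · exact Or.inr ⟨mem_supp_of_agr (h₃ γ h) hγ, hγα⟩
  · intro γ hγ
    rcases lt_trichotomy γ β with h | rfl | h
    · exact (hr.good h).of_agr (L_of_agr fun δ hδ => h₁ δ (hδ.trans h)) (h₁ γ h)
    · exact hg hγ
    · exact (hs.good hγ).of_agr (modify_le hrs h₁ h₂ h₃) (h₃ γ h)

/-- Amalgamation. -/
theorem exists_amalg {β : K} {r s : Pre} (hr : V β r) (hrs : L β r s) :
    ∃ t, (∀ γ < β, Agr γ t r) ∧ (∀ γ, β ≤ γ → Agr γ t s) ∧ (∀ α, L α t s) ∧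
      ∀ α, V α s → V α t := by
  obtain ⟨t, h₁, h₂, h₃⟩ := exists_modify β r s (fun x a => Dec β s x a)
    (fun x x' a h _ hl => h.mono hl)
  have h₂' : Agr β t s := fun x a hx => by rw [h₂ x a hx, dns_dec_iff]
  have hl : ∀ α, L α t s := fun α => modify_le hrs h₁ (fun x a hx _ h => (h₂' x a hx).2 h) h₃
  refine ⟨t, h₁, fun γ hγ => ?_, hl, fun α hs => ?_⟩
  · rcases hγ.eq_or_lt with rfl | h
    exacts [h₂', h₃ γ h]
  · exact modify_valid hr hs hrs h₁ (fun x a hx _ h => (h₂' x a hx).2 h) h₃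
      fun h => (hs.good h).of_agr (hl β) h₂'

/-- The trivial condition. -/
noncomputable def top : Pre := canon ∅

theorem supp_top : supp top = ∅ := by
  ext β
  simp only [mem_empty_iff_false, iff_false]
  rintro ⟨r, a, hr, h⟩
  obtain ⟨s, -, -, c, hc, -⟩ := h r hr L.rfl
  rw [top, ent_canon inferInstance] at hc
  exact hc

theorem V_top (α : K) : V α top :=
  V_iff.2 ⟨by simp [supp_top], fun β _ => good_of_notMem_supp (by simp [supp_top])⟩

theorem L_of_supp {α β : K} {p q : Pre} (h : L β p q) (hq : supp q ∩ Iio α ⊆ Iio β) : L α p q := by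
  rw [L_iff]
  intro γ hγ r hr hrp a ha
  exact h.dec (hq ⟨⟨r, a, hr, ha⟩, hγ⟩) hr hrp ha

theorem L_top (α : K) (p : Pre) : L α p top :=
  L_of_supp (β := 0) (L_iff.2 fun _ h => absurd h (not_lt_of_ge zero_le)) (by simp [supp_top])

theorem V_of_supp {α β : K} {p : Pre} (h : V β p) (hp : supp p ⊆ Iio β) : V α p := by
  rw [V_iff]
  refine ⟨(V_iff.1 h).1.mono fun γ hγ => mem_inter hγ.1 (hp hγ.1), fun γ _ => ?_⟩
  by_cases hγ : γ ∈ supp p
  · exact h.good (hp hγ)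
  · exact good_of_notMem_supp hγ

end Pool.Agent.MP_5a4599_gt
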