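import Pool.Agent.MP_5a4599_gt.Clo

namespace Pool.Agent.MP_5a4599_gt

open Set Ordinal

/-- The first index that can be forced. -/
def First (γ : K) (Ψ : Pre → ℕ → Prop) (r : Pre) (j : ℕ) : Prop :=
  Ψ r j ∧ ∀ i < j, ¬ ∃ s, V γ s ∧ L γ s r ∧ Ψ s i

theorem First.mono {γ : K} {Ψ : Pre → ℕ → Prop} {r r' : Pre} {j : ℕ}
    (hΨ : ∀ r r' j, Ψ r j → V γ r' → L γ r' r → Ψ r' j) (h : First γ Ψ r j) (hr : V γ r')
    (hl : L γ r' r) : First γ Ψ r' j :=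
  ⟨hΨ _ _ _ h.1 hr hl, fun i hi ⟨s, h₁, h₂, h₃⟩ => h.2 i hi ⟨s, h₁, h₂.trans hl, h₃⟩⟩

theorem First.uniq {γ : K} {Ψ : Pre → ℕ → Prop} {r : Pre} {i j : ℕ} (hr : V γ r)
    (h : First γ Ψ r i) (h' : First γ Ψ r j) : i = j := by
  rcases lt_trichotomy i j with e | e | e
  · exact absurd ⟨r, hr, L.rfl, h.1⟩ (h'.2 i e)
  · exact e
  · exact absurd ⟨r, hr, L.rfl, h'.1⟩ (h.2 j e)

theorem First.ex {γ : K} {Ψ : Pre → ℕ → Prop} {s : Pre}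
    (h : ∃ j r, V γ r ∧ L γ r s ∧ Ψ r j) : ∃ r j, V γ r ∧ L γ r s ∧ First γ Ψ r j := by
  classical
  obtain ⟨r, h₁, h₂, h₃⟩ := Nat.find_spec h
  exact ⟨r, _, h₁, h₂, h₃, fun i hi ⟨t, h₄, h₅, h₆⟩ =>
    Nat.find_min h hi ⟨t, h₄, h₅.trans h₂, h₆⟩⟩

variable (N : Clo)

def Gnr (α : K) (q : Pre) : Prop :=
  ∀ D ∈ N.NT, DT α D → Dns α q fun s => ∃ v : Pre × W, v.1 ∈ N.NP ∧ v.2 < N.δ ∧ D s v

structure Nm (γ α : K) (q : Pre) (Z : Pre → Pre → Prop) : Prop where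
  mem : ∀ r p, Z r p → p ∈ N.NP ∧ V α p ∧ L γ r p
  mono : ∀ r r' p, Z r p → V γ r' → L γ r' r → Z r' p
  fn : ∀ r p p', V γ r → Z r p → Z r p' → p = p'
  dns : Dns γ q fun r => ∃ p, Z r p

variable {N}

theorem Nm.weaken {γ α β : K} {q : Pre} {Z : Pre → Pre → Prop} (h : Nm N γ α q Z) (hβ : β ≤ α) :
    Nm N γ β q Z :=
  ⟨fun r p hz => ⟨(h.mem r p hz).1, (h.mem r p hz).2.1.mono hβ, (h.mem r p hz).2.2⟩, h.mono, h.fn,
    h.dns⟩

theorem Nm.lift {γ β α : K} {q q₁ : Pre} {Z : Pre → Pre → Prop} (h : Nm N γ α q Z) (hγ : γ ≤ β)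
    (ha : ∀ x < γ, Agr x q₁ q) (hc : ∀ s p, V β s → L β s q₁ → Z s p → L β s p) :
    Nm N β α q₁ fun r p => Z r p ∧ L β r p := by
  refine ⟨fun r p hz => ⟨(h.mem r p hz.1).1, (h.mem r p hz.1).2.1, hz.2⟩,
    fun r r' p hz hr hl => ⟨h.mono r r' p hz.1 (hr.mono hγ) (hl.mono hγ), hl.trans hz.2⟩,
    fun r p p' hr hz hz' => h.fn r p p' (hr.mono hγ) hz.1 hz'.1, fun s hs hsq => ?_⟩
  obtain ⟨r, hr, hrs, p, hz⟩ := h.dns s (hs.mono hγ) ((hsq.mono hγ).trans (L_of_agr ha))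
  obtain ⟨t, h₁, -, h₃, h₄⟩ := exists_amalg hr hrs
  have hz' : Z t p := h.mono r t p hz ((h₄ β hs).mono hγ) (L_of_agr h₁)
  exact ⟨t, h₄ β hs, h₃ β, p, hz', hc t p (h₄ β hs) ((h₃ β).trans hsq) hz'⟩

theorem Nm.refine {γ α : K} {q : Pre} {Z : Pre → Pre → Prop} (h : Nm N γ α q Z) (hγ : γ ≤ α)
    (hγN : γ ∈ N.NK) (hαN : α ∈ N.NK) (hq : Gnr N γ q) {D : Task} (hD : D ∈ N.NT)
    (hD' : DT α D) :
    ∃ Y, Nm N γ α q Y ∧ ∀ r p', Y r p' → (∃ p, Z r p ∧ L α p' p) ∧ ∃ w, D p' w := by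
  obtain ⟨e, he⟩ := N.cP.exists_eq_range ⟨_, N.top⟩
  let Ψ : Pre → ℕ → Prop := fun r j =>
    (∃ p, Z r p ∧ L α (e j) p) ∧ V α (e j) ∧ (∃ w, D (e j) w) ∧ L γ r (e j)
  have hΨ : ∀ r r' j, Ψ r j → V γ r' → L γ r' r → Ψ r' j := by
    rintro r r' j ⟨⟨p, h₁, h₂⟩, h₃, h₄, h₅⟩ hr hl
    exact ⟨⟨p, h.mono _ _ _ h₁ hr hl, h₂⟩, h₃, h₄, hl.trans h₅⟩
  refine ⟨fun r p' => ∃ j, p' = e j ∧ First γ Ψ r j, ⟨?_, ?_, ?_, ?_⟩, ?_⟩
  · rintro r p ⟨j, rfl, hj⟩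
    exact ⟨he ▸ ⟨j, rfl⟩, hj.1.2.1, hj.1.2.2.2⟩
  · rintro r r' p ⟨j, rfl, hj⟩ hr hl
    exact ⟨j, rfl, hj.mono hΨ hr hl⟩
  · rintro r p p' hr ⟨i, rfl, hi⟩ ⟨j, rfl, hj⟩
    rw [First.uniq hr hi hj]
  · intro s hs hsq
    obtain ⟨s₁, hs₁, h₁, p, hz⟩ := h.dns s hs hsq
    obtain ⟨hp, hpV, hl⟩ := h.mem _ _ hz
    obtain ⟨s₂, hs₂, h₂, v, hv, -, hT | hT⟩ := hq _ (N.t2 γ hγN α hαN p hp D hD)
      (dt_T2 hγ hpV hD') s₁ hs₁ (h₁.trans hsq)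
    · exact absurd ⟨s₂, hs₂, L.rfl, h₂.trans hl⟩ hT
    · rw [he] at hv
      obtain ⟨j, hj⟩ := hv
      obtain ⟨r, i, hr, hrs, hi⟩ := First.ex (Ψ := Ψ) (s := s) ⟨j, s₂, hs₂, h₂.trans h₁,
        ⟨p, h.mono _ _ _ hz hs₂ h₂, hj ▸ hT.2.1⟩, hj ▸ hT.1, hj ▸ hT.2.2.1, hj ▸ hT.2.2.2⟩
      exact ⟨r, hr, hrs, _, i, rfl, hi⟩
  · rintro r p ⟨j, rfl, hj⟩
    exact ⟨hj.1.1, hj.1.2.2.1⟩

theorem low_of_gnr {γ : K} {q p : Pre} (hq : Gnr N γ q) (hγ : γ ∈ N.NK) (hp : p ∈ N.NP)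
    (hg : Good γ p) {r : Pre} (hr : V γ r) (hrq : L γ r q) (hrp : L γ r p) :
    ∃ r', V γ r' ∧ L γ r' r ∧
      ∀ s, V γ s → L γ s r' → ∀ a, Dec γ p s a → Low N.δ a := by
  obtain ⟨r', hr', hl, v, -, hv, hT | hT⟩ := hq _ (N.t1 γ hγ p hp) (dt_T1 hg) r hr hrq
  · exact absurd ⟨r', hr', L.rfl, hl.trans hrp⟩ hT
  · refine ⟨r', hr', hl, fun s hs hsr a ha => ?_⟩
    by_cases h0 : cl a = 0
    · exact (hT s hs hsr a h0 ha).mono hv.le
    · cases a <;> simp_all [cl, Low]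

theorem con_pt_of_low {δ : W} {a : Atom} (h : Low δ a) : Con (.pt δ) a := by
  cases a with
  | gap a b => exact fun h' => absurd h.2 (not_lt.2 h'.2)
  | _ => trivial

/-- Deciding the finite part of a coordinate. -/
theorem exists_decide {γ : K} {p r : Pre} (hg : Good γ p) (hr : V γ r) (hrp : L γ r p) :
    ∃ r', V γ r' ∧ L γ r' r ∧ {a | cl a = 0 ∧ Dec γ p r' a}.Finite ∧
      ∀ s, V γ s → L γ s r' → ∀ a, cl a = 0 → Dec γ p s a → Dec γ p r' a := by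
  classical
  obtain ⟨r₁, hr₁, h₁, T, hT, H⟩ := (Good_def.1 hg r hr hrp).2 0
  let A : Pre → Set Atom := fun s => {a | cl a = 0 ∧ Dec γ p s a}
  have hA : ∀ s, V γ s → L γ s r₁ → A s ⊆ T := fun s hs hl a ha => H s hs hl a ha.1 ha.2
  have hb : ∃ n, ∃ s, V γ s ∧ L γ s r₁ ∧ T.ncard - (A s).ncard = n := ⟨_, r₁, hr₁, L.rfl, rfl⟩
  obtain ⟨s, hs, hl, e⟩ := Nat.find_spec hb
  refine ⟨s, hs, hl.trans h₁, hT.subset (hA s hs hl), fun t ht hts a ha hd => ?_⟩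
  have sub : A s ⊆ A t := fun b hb => ⟨hb.1, hb.2.mono hts⟩
  have fin : (A t).Finite := hT.subset (hA t ht (hts.trans hl))
  have h₂ : Nat.find hb ≤ T.ncard - (A t).ncard := Nat.find_min' hb ⟨t, ht, hts.trans hl, rfl⟩
  have h₃ : (A t).ncard ≤ T.ncard := ncard_le_ncard (hA t ht (hts.trans hl)) hT
  have h₄ : (A s).ncard ≤ (A t).ncard := ncard_le_ncard sub fin
  have : A s = A t := eq_of_subset_of_ncard_le sub (by omega) fin
  have h₅ : a ∈ A s := this ▸ (⟨ha, hd⟩ : a ∈ A t)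
  exact h₅.2

theorem con_reflect {δ : W} {A B u : Set Atom} (hA : ∀ a ∈ A, ∀ b ∈ A, Con a b)
    (hB : ∀ a ∈ B, ∀ b ∈ B, Con a b) (hδ : Atom.pt δ ∈ A) (hl : ∀ b ∈ B, Low δ b)
    (h₁ : ∀ a ∈ A, cl a = 0 → Low δ a → a ∈ B) (h₂ : ∀ n m, Atom.eq n m ∈ B → Atom.eq n m ∈ u)
    (h₃ : u ⊆ A) : ∀ a ∈ A, ∀ b ∈ B, Con a b := by
  intro a ha b hb
  by_cases h : cl a = 0 ∧ Low δ a
  · exact hB a (h₁ a ha h.1 h.2) b hb
  cases a with
  | pt d =>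
    cases b with
    | gap x y =>
      have h' : ¬ d < δ := fun h' => h ⟨rfl, h'⟩
      exact fun h₄ => h' (h₄.2.trans_lt (hl _ hb).2)
    | _ => trivial
  | gap x y =>
    cases b with
    | pt d =>
      have h₄ : ¬ (x < δ ∧ δ ≤ y) := hA _ hδ _ ha
      exact fun h₅ => h ⟨rfl, h₅.1.trans (hl _ hb),
        not_le.1 fun h₆ => h₄ ⟨h₅.1.trans (hl _ hb), h₆⟩⟩
    | _ => trivial
  | eq n m => exact absurd ⟨rfl, trivial⟩ h
  | ge n m =>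
    cases b with
    | eq n' m' => exact hA _ ha _ (h₃ (h₂ _ _ hb))
    | _ => trivial

theorem succ_step {γ : K} (hγ : γ ∈ N.NK) {q : Pre} {Z : Pre → Pre → Prop} (hV : V γ q)
    (hq : Gnr N γ q) (hZ : Nm N γ (Order.succ γ) q Z) :
    ∃ q', V (Order.succ γ) q' ∧ (∀ β < γ, Agr β q' q) ∧ Gnr N (Order.succ γ) q' ∧
      ∀ s p, V (Order.succ γ) s → L (Order.succ γ) s q' → Z s p → L (Order.succ γ) s p := by
  have lt := Order.lt_succ γ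
  obtain ⟨q', h₁, h₂, h₃⟩ := exists_modify γ q top
    (fun r a => a = .pt N.δ ∨ ∃ p, Z r p ∧ Dec γ p r a) (by
      rintro x x' a (h | ⟨p, h, h'⟩) hx hl
      exacts [Or.inl h, Or.inr ⟨p, hZ.mono _ _ _ h hx hl, h'.mono hl⟩])
  have hpt : ∀ r, V γ r → Dec γ q' r (.pt N.δ) := fun r hr =>
    (h₂ r _ hr).2 (Dns.of_all fun _ _ _ => Or.inl rfl)
  have hA : ∀ r p a, V γ r → Z r p → (Dec γ q' r a ↔ a = .pt N.δ ∨ Dec γ p r a) := by
    intro r p a hr hz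
    constructor
    · intro h
      by_cases e : a = .pt N.δ
      · exact Or.inl e
      · refine Or.inr (Dec.reg (((h₂ r a hr).1 h).imp ?_))
        rintro s hs hsr (h | ⟨p', h, h'⟩)
        · exact absurd h e
        · rwa [hZ.fn s p p' hs (hZ.mono _ _ _ hz hs hsr) h]
    · rintro (rfl | h)
      · exact hpt r hr
      · exact (h₂ r a hr).2 (Dns.of_all fun s hs hsr =>
          Or.inr ⟨p, hZ.mono _ _ _ hz hs hsr, h.mono hsr⟩)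
  have hqq : L γ q' q := L_of_agr h₁
  have hgood : Good γ q' := by
    rw [Good_def]
    intro r hr hrq
    obtain ⟨r₁, hr₁, hl₁, p, hz⟩ := hZ.dns r hr (hrq.trans hqq)
    obtain ⟨hp, hpV, hlp⟩ := hZ.mem _ _ hz
    constructor
    · intro a b ha hb
      obtain ⟨r₂, hr₂, hl₂, H⟩ := low_of_gnr hq hγ hp (hpV.good lt) hr₁
        (hl₁.trans (hrq.trans hqq)) hlp
      have hz₂ := hZ.mono _ _ _ hz hr₂ hl₂
      have ha' := (hA r₂ p a hr₂ hz₂).1 (ha.mono (hl₂.trans hl₁))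
      have hb' := (hA r₂ p b hr₂ hz₂).1 (hb.mono (hl₂.trans hl₁))
      rcases ha' with rfl | ha' <;> rcases hb' with rfl | hb'
      · trivial
      · exact con_pt_of_low (H r₂ hr₂ L.rfl b hb')
      · exact (con_pt_of_low (H r₂ hr₂ L.rfl a ha')).symm
      · exact (Good_def.1 (hpV.good lt) r₂ hr₂ (hl₂.trans hlp)).1 a b ha' hb'
    · intro k
      obtain ⟨r₂, hr₂, hl₂, T, hT, H⟩ := (Good_def.1 (hpV.good lt) r₁ hr₁ hlp).2 k
      refine ⟨r₂, hr₂, hl₂.trans hl₁, insert (.pt N.δ) T, hT.insert _, fun s hs hl a hk ha => ?_⟩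
      rcases (hA s p a hs (hZ.mono _ _ _ hz hs (hl.trans hl₂))).1 ha with h | h
      exacts [Or.inl h, Or.inr (H s hs hl a hk h)]
  have hnt : ∀ x a, V γ x → L γ x q → Dec γ top x a → Dec γ q' x a := fun x a hx _ h =>
    absurd h (not_dec_of_notMem_supp (by simp [supp_top]) hx)
  refine ⟨q', modify_valid hV (V_top _) (L_top _ _) h₁ hnt h₃ fun _ => hgood, h₁, ?_, ?_⟩
  · intro D hD hD' s hs hsq
    obtain ⟨s₁, hs₁, hl₁, v₀, hv₀⟩ := hD'.2 s hs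
    have hs₁q : L (Order.succ γ) s₁ q' := hl₁.trans hsq
    obtain ⟨r₂, hr₂, hl₂, hfin, hdec⟩ := exists_decide (hs₁.good lt) (hs₁.mono lt.le) L.rfl
    let u : Set Atom := {a | (cl a = 0 ∧ Dec γ s₁ r₂ a) ∧ Low N.δ a}
    have hr₂q : L γ r₂ q := hl₂.trans ((hs₁q.mono lt.le).trans hqq)
    obtain ⟨r₃, hr₃, hl₃, v, hv, -, hT | hT⟩ := hq _
      (N.t3 γ hγ D hD u (hfin.subset fun a ha => ha.1) fun a ha => ha.2) (dt_T3 γ D u) r₂ hr₂ hr₂q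
    swap
    · exact absurd ⟨r₃, s₁, hr₃, L.rfl, hs₁, ⟨v₀, hv₀⟩, hl₃.trans hl₂,
        fun a ha => ha.1.2.mono hl₃, fun x hx hxr n m h =>
          ⟨⟨rfl, hdec x hx (hxr.trans hl₃) _ rfl h⟩, trivial⟩⟩ hT
    obtain ⟨hp'V, hw, hl', hu, he⟩ := hT
    obtain ⟨r₄, hr₄, hl₄, hlow⟩ := low_of_gnr hq hγ hv (hp'V.good lt) hr₃ (hl₃.trans hr₂q) hl'
    obtain ⟨t, ht₁, ht₂, ht₃⟩ := exists_modify γ r₄ s₁
      (fun x a => Dec γ s₁ x a ∨ Dec γ v.1 x a) (by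
        rintro x x' a (h | h) _ hl
        exacts [Or.inl (h.mono hl), Or.inr (h.mono hl)])
    have hr₄s : L γ r₄ s₁ := hl₄.trans (hl₃.trans hl₂)
    have htr : L γ t r₄ := L_of_agr ht₁
    have hsub : ∀ x a, V γ x → L γ x r₄ → Dec γ s₁ x a → Dec γ t x a := fun x a hx _ h =>
      (ht₂ x a hx).2 (Dns.of_all fun y _ hy => Or.inl (h.mono hy))
    have htg : Good γ t := by
      rw [Good_def]
      intro x hx hxt
      have hx4 : L γ x r₄ := hxt.trans htr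
      constructor
      · intro a b ha hb
        obtain ⟨y, hy, hyx, ha'⟩ := (ht₂ x a hx).1 ha x hx L.rfl
        obtain ⟨z, hz, hzy, hb'⟩ := (ht₂ x b hx).1 hb y hy hyx
        have hz4 : L γ z r₄ := hzy.trans (hyx.trans hx4)
        have cA := (Good_def.1 (hs₁.good lt) z hz (hz4.trans hr₄s)).1
        have cB := (Good_def.1 (hp'V.good lt) z hz (hz4.trans (hl₄.trans hl'))).1
        have key := con_reflect (δ := N.δ) (A := {a | Dec γ s₁ z a}) (B := {a | Dec γ v.1 z a})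
          (u := u) (fun a ha b hb => cA a b ha hb) (fun a ha b hb => cB a b ha hb)
          (hs₁q.dec lt hz (hz4.trans hr₄s) (hpt z hz)) (fun b hb => hlow z hz hz4 b hb)
          (fun a ha h0 hl => (hu a ⟨⟨h0, hdec z hz (hz4.trans (hl₄.trans hl₃)) a h0 ha⟩, hl⟩).mono
            (hz4.trans hl₄))
          (fun n m h => he z hz (hz4.trans hl₄) n m h)
          (fun a ha => ha.1.2.mono (hz4.trans (hl₄.trans hl₃)))
        rcases ha' with ha' | ha' <;> rcases hb' with hb' | hb'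
        · exact cA a b (ha'.mono hzy) hb'
        · exact key a (ha'.mono hzy) b hb'
        · exact (key b hb' a (ha'.mono hzy)).symm
        · exact cB a b (ha'.mono hzy) hb'
      · intro k
        obtain ⟨y, hy, hyx, T, hT, H⟩ :=
          (Good_def.1 (hs₁.good lt) x hx (hx4.trans hr₄s)).2 k
        obtain ⟨z, hz, hzy, T', hT', H'⟩ :=
          (Good_def.1 (hp'V.good lt) y hy (hyx.trans (hx4.trans (hl₄.trans hl')))).2 k
        refine ⟨z, hz, hzy.trans hyx, T ∪ T', hT.union hT', fun x' hx' hl a hk ha => ?_⟩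
        obtain ⟨y', hy', hl', h | h⟩ := (ht₂ x' a hx').1 ha x' hx' L.rfl
        · exact Or.inl (H y' hy' (hl'.trans (hl.trans hzy)) a hk h)
        · exact Or.inr (H' y' hy' (hl'.trans hl) a hk h)
    have htV : V (Order.succ γ) t := modify_valid hr₄ hs₁ hr₄s ht₁ hsub ht₃ fun _ => htg
    have htp : L (Order.succ γ) t v.1 := by
      rw [L_iff]
      intro β hβ x hx hxt a ha
      rcases (Order.lt_succ_iff.1 hβ).eq_or_lt with rfl | h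
      · exact (ht₂ x a hx).2 (Dns.of_all fun y _ hy => Or.inr (ha.mono hy))
      · exact (htr.trans (hl₄.trans hl')).dec h hx hxt ha
    obtain ⟨w, hw₁, hw₂, hw₃⟩ := N.wit D hD v.1 hv hw
    exact ⟨t, htV, (modify_le hr₄s ht₁ hsub ht₃).trans hl₁, w, hw₁, hw₂, hD'.1 _ _ _ hw₃ htV htp⟩
  · intro s p _ hsq hz
    rw [L_iff]
    intro β hβ x hx hxs a ha
    rcases (Order.lt_succ_iff.1 hβ).eq_or_lt with rfl | h
    · exact hsq.dec lt hx hxs ((hA x p a hx (hZ.mono _ _ _ hz hx hxs)).2 (Or.inr ha))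
    · exact (hZ.mem _ _ hz).2.2.dec h hx hxs ha

theorem dc {X : Type*} (Inv : ℕ → X → Prop) (Rel : ℕ → X → X → Prop) (x₀ : X) (h₀ : Inv 0 x₀)
    (step : ∀ n x, Inv n x → ∃ y, Inv (n + 1) y ∧ Rel n x y) :
    ∃ f : ℕ → X, f 0 = x₀ ∧ ∀ n, Inv n (f n) ∧ Rel n (f n) (f (n + 1)) := by
  choose g hg using step
  let F : ∀ n, {x // Inv n x} := fun n =>
    Nat.rec ⟨x₀, h₀⟩ (fun n x => ⟨g n x.1 x.2, (hg n x.1 x.2).1⟩) n
  exact ⟨fun n => (F n).1, rfl, fun n => ⟨(F n).2, (hg n (F n).1 (F n).2).2⟩⟩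

/-- The statement of the proper iteration lemma. -/
def PIL (N : Clo) (α : K) : Prop :=
  ∀ γ ∈ N.NK, γ ≤ α → ∀ q Z, V γ q → Gnr N γ q → Nm N γ α q Z →
    ∃ q', V α q' ∧ (∀ β < γ, Agr β q' q) ∧ Gnr N α q' ∧
      ∀ s p, V α s → L α s q' → Z s p → L α s p

theorem limit_step {α : K} (hα : α ∈ N.NK) (hlim : ∀ β < α, Order.succ β < α)
    (ih : ∀ β < α, β ∈ N.NK → PIL N β) {γ : K} (hγ : γ ∈ N.NK) (hγα : γ < α) {q : Pre}
    {Z : Pre → Pre → Prop} (hV : V γ q) (hq : Gnr N γ q) (hZ : Nm N γ α q Z) :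
    ∃ q', V α q' ∧ (∀ β < γ, Agr β q' q) ∧ Gnr N α q' ∧
      ∀ s p, V α s → L α s q' → Z s p → L α s p := by
  classical
  obtain ⟨e, he⟩ := (N.cK.mono (inter_subset_left (t := Iio α))).exists_eq_range ⟨γ, hγ, hγα⟩
  have he' : ∀ n, e n ∈ N.NK ∧ e n < α := fun n =>
    (he ▸ mem_range_self n : e n ∈ N.NK ∩ Iio α)
  obtain ⟨D, hD⟩ := (N.cT.mono (inter_subset_left (t := {D | DT α D}))).exists_eq_range
    ⟨T1 α top, N.t1 α hα _ N.top, dt_T1 (good_of_notMem_supp (by simp [supp_top]))⟩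
  have hD' : ∀ n, D n ∈ N.NT ∧ DT α (D n) := fun n =>
    (hD ▸ mem_range_self n : D n ∈ N.NT ∩ {D | DT α D})
  let c : ℕ → K := fun n => Nat.rec γ (fun n x => max x (Order.succ (e n))) n
  have hc : ∀ n, c (n + 1) = max (c n) (Order.succ (e n)) := fun n => rfl
  have hcm : Monotone c := monotone_nat_of_le_succ fun n => by rw [hc]; exact le_max_left _ _
  have hcN : ∀ n, c n ∈ N.NK ∧ c n < α := by
    intro n
    induction n with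
    | zero => exact ⟨hγ, hγα⟩
    | succ n ih =>
      rw [hc]
      rcases max_choice (c n) (Order.succ (e n)) with h | h <;> rw [h]
      exacts [ih, ⟨N.succ _ (he' n).1, hlim _ (he' n).2⟩]
  have hcof : ∀ β ∈ N.NK, β < α → ∃ n, β < c n := by
    intro β h₁ h₂
    obtain ⟨n, rfl⟩ : β ∈ range e := he ▸ ⟨h₁, h₂⟩
    exact ⟨n + 1, by rw [hc]; exact lt_max_of_lt_right (Order.lt_succ _)⟩
  obtain ⟨f, f0, hf⟩ := dc (X := Pre × (Pre → Pre → Prop))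
    (fun n x => V (c n) x.1 ∧ Gnr N (c n) x.1 ∧ Nm N (c n) α x.1 x.2)
    (fun n x y => (∀ β < c n, Agr β y.1 x.1) ∧
      (∀ s p, V (c (n + 1)) s → L (c (n + 1)) s y.1 → x.2 s p → L (c (n + 1)) s p) ∧
      ∀ r p', y.2 r p' → (∃ p, x.2 r p ∧ L α p' p) ∧ ∃ w, D n p' w) (q, Z) ⟨hV, hq, hZ⟩ (by
      rintro n ⟨x, Y⟩ ⟨h₁, h₂, h₃⟩
      obtain ⟨y, h₄, h₅, h₆, h₇⟩ := ih (c (n + 1)) (hcN (n + 1)).2 (hcN (n + 1)).1 (c n) (hcN n).1
        (hcm n.le_succ) x Y h₁ h₂ (h₃.weaken (hcN (n + 1)).2.le)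
      obtain ⟨Y', h₈, h₉⟩ := (h₃.lift (hcm n.le_succ) h₅ h₇).refine (hcN (n + 1)).2.le
        (hcN (n + 1)).1 hα h₆
        (hD' n).1 (hD' n).2
      refine ⟨(y, Y'), ⟨h₄, h₆, h₈⟩, h₅, h₇, fun r p' h => ⟨?_, (h₉ r p' h).2⟩⟩
      obtain ⟨p, h, h'⟩ := (h₉ r p' h).1
      exact ⟨p, h.1, h'⟩)
  have coh : ∀ n m, n ≤ m → ∀ β < c n, Agr β (f m).1 (f n).1 := by
    intro n m h β hβ
    induction m, h using Nat.le_induction with
    | base => exact Agr.rfl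
    | succ m h ih => exact ((hf m).2.1 β (hβ.trans_le (hcm h))).trans ih
  obtain ⟨q', -, hq'⟩ := exists_cond α (fun β r a => ∃ n, β < c n ∧ Dec β (f n).1 r a)
    (fun β r r' a ⟨n, h₁, h₂⟩ _ hl => ⟨n, h₁, h₂.mono hl⟩)
  have agr : ∀ n, ∀ β < c n, Agr β q' (f n).1 := by
    intro n β hβ r a hr
    rw [hq' β r a hr, ← dns_dec_iff]
    constructor
    · rintro ⟨-, h⟩
      refine h.imp fun s hs _ ⟨m, h₁, h₂⟩ => ?_
      rcases le_total n m with h | h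
      · exact (coh n m h β hβ s a hs).1 h₂
      · exact (coh m n h β h₁ s a hs).2 h₂
    · exact fun h => ⟨hβ.trans (hcN n).2, h.imp fun s _ _ h => ⟨n, hβ, h⟩⟩
  have hsupp : ∀ β ∈ supp q', ∃ n, β < c n := by
    rintro β ⟨r, a, hr, h⟩
    obtain ⟨s, -, -, n, hn, -⟩ := ((hq' β r a hr).1 h).2 r hr L.rfl
    exact ⟨n, hn⟩
  have hV' : V α q' := by
    rw [V_iff]
    constructor
    · refine (countable_iUnion fun n => (V_iff.1 (hf n).1.1).1).mono ?_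
      rintro β ⟨hβ, -⟩
      obtain ⟨n, hn⟩ := hsupp β hβ
      exact mem_iUnion.2 ⟨n, mem_supp_of_agr (agr n β hn) hβ, hn⟩
    · intro β _
      by_cases hβ : β ∈ supp q'
      · obtain ⟨n, hn⟩ := hsupp β hβ
        exact ((hf n).1.1.good hn).of_agr (L_of_agr fun x hx => agr n x (hx.trans hn)) (agr n β hn)
      · exact good_of_notMem_supp hβ
  have chain : ∀ n k, n ≤ k → ∀ t p p', V α t → (f n).2 t p → (f k).2 t p' → L α p' p := by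
    intro n k h t p
    induction k, h using Nat.le_induction with
    | base =>
      intro p' ht h₁ h₂
      rw [(hf n).1.2.2.fn t p p' (ht.mono (hcN n).2.le) h₁ h₂]
      exact L.rfl
    | succ k _ ih =>
      intro p' ht h₁ h₂
      obtain ⟨p'', h₃, h₄⟩ := ((hf k).2.2.2 t p' h₂).1
      exact h₄.trans (ih p'' ht h₁ h₃)
  have claim : ∀ n s p, V α s → L α s q' → (f n).2 s p → L α s p := by
    intro n s p hs hsq hz
    obtain ⟨hp, hpV, hl⟩ := (hf n).1.2.2.mem _ _ hz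
    rw [L_iff]
    intro β hβ r hr hrs a ha
    rcases em (β < c n) with hn | hn
    · exact hl.dec hn hr hrs ha
    have hex := hcof β (N.supp α hα p hp hpV ⟨⟨r, a, hr, ha⟩, hβ⟩) hβ
    obtain ⟨k, hk₂, hk₁⟩ := Nat.exists_not_and_succ_of_not_zero_of_exists
      (p := fun n => β < c n) (fun h => hn (h.trans_le (hcm n.zero_le))) hex
    replace hk₂ : c k ≤ β := not_lt.1 hk₂
    have hnk : n ≤ k := by
      by_contra h
      exact hn (lt_of_lt_of_le hk₁ (hcm (show k + 1 ≤ n by omega)))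
    refine Dec.reg fun r' hr' hl' => ?_
    obtain ⟨r'', hr'', hl'', p', hz'⟩ := (hf k).1.2.2.dns r' (hr'.mono hk₂)
      (((hl'.trans (hrs.trans (hsq.mono hβ.le))).mono hk₂).trans (L_of_agr (agr k)))
    obtain ⟨t₁, a₁, -, b₁, c₁⟩ := exists_amalg hr'' hl''
    obtain ⟨t, a₂, a₃, b₂, c₂⟩ := exists_amalg (c₁ β hr') ((b₁ β).trans (hl'.trans hrs))
    have ht : V α t := c₂ α hs
    have htr : L β t r' := (L_of_agr a₂).trans (b₁ β)
    have y₁ : (f k).2 t p' := (hf k).1.2.2.mono _ _ _ hz' (ht.mono (hcN k).2.le)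
      (((L_of_agr a₂).mono hk₂).trans (L_of_agr a₁))
    have y₂ : (f n).2 t p := (hf n).1.2.2.mono _ _ _ hz (ht.mono (hcN n).2.le) (b₂ _)
    have y₃ : L (c (k + 1)) t p' := (hf k).2.2.1 t p' (ht.mono (hcN (k + 1)).2.le)
      ((b₂ _).trans ((hsq.mono (hcN (k + 1)).2.le).trans (L_of_agr (agr (k + 1))))) y₁
    have y₄ : L (c (k + 1)) t p := y₃.trans ((chain n k hnk t p p' ht y₂ y₁).mono (hcN (k + 1)).2.le)
    exact ⟨t, ht.mono hβ.le, htr, (a₃ β le_rfl t a (ht.mono hβ.le)).1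
      (y₄.dec hk₁ (ht.mono hβ.le) L.rfl (ha.mono (htr.trans hl')))⟩
  refine ⟨q', hV', fun β hβ => by simpa [f0] using agr 0 β hβ, fun E hE hE' s hs hsq => ?_,
    fun s p hs hsq hz => claim 0 s p hs hsq (by rw [f0]; exact hz)⟩
  obtain ⟨n, rfl⟩ : E ∈ range D := hD ▸ ⟨hE, hE'⟩
  obtain ⟨r, hr, hrs, p', hz⟩ := (hf (n + 1)).1.2.2.dns s (hs.mono (hcN (n + 1)).2.le)
    ((hsq.mono (hcN (n + 1)).2.le).trans (L_of_agr (agr (n + 1))))
  obtain ⟨t, a₁, -, b₁, c₁⟩ := exists_amalg hr hrs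
  have ht := c₁ α hs
  have y₁ : (f (n + 1)).2 t p' :=
    (hf (n + 1)).1.2.2.mono _ _ _ hz (ht.mono (hcN (n + 1)).2.le) (L_of_agr a₁)
  obtain ⟨w, h₁, h₂, h₃⟩ := N.wit _ hE p' ((hf (n + 1)).1.2.2.mem _ _ y₁).1 ((hf n).2.2.2 _ _ y₁).2
  exact ⟨t, ht, b₁ α, w, h₁, h₂,
    hE'.1 _ _ _ h₃ ht (claim (n + 1) t p' ht ((b₁ α).trans hsq) y₁)⟩

theorem pil (α : K) : α ∈ N.NK → PIL N α := by
  induction α using WellFoundedLT.induction with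
  | ind α ih =>
    intro hα γ hγ hγα q Z hV hq hZ
    rcases hγα.eq_or_lt with rfl | hlt
    · exact ⟨q, hV, fun _ _ => Agr.rfl, hq, fun s p _ _ hz => (hZ.mem _ _ hz).2.2⟩
    by_cases h : ∃ β, α = Order.succ β
    · obtain ⟨β, rfl⟩ := h
      have lt := Order.lt_succ β
      have hβ := N.pred β hα
      have hγβ := Order.lt_succ_iff.1 hlt
      obtain ⟨q₁, h₁, h₂, h₃, h₄⟩ := ih β lt hβ γ hγ hγβ q Z hV hq (hZ.weaken lt.le)
      obtain ⟨q', h₅, h₆, h₇, h₈⟩ := succ_step hβ h₁ h₃ (hZ.lift hγβ h₂ h₄)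
      refine ⟨q', h₅, fun x hx => (h₆ x (hx.trans_le hγβ)).trans (h₂ x hx), h₇,
        fun s p hs hl hz => h₈ s p hs hl ⟨hz, h₄ s p (hs.mono lt.le)
          ((hl.mono lt.le).trans (L_of_agr h₆)) hz⟩⟩
    · exact limit_step hα (fun β hβ => (Order.succ_le_iff.2 hβ).lt_of_ne fun e => h ⟨β, e.symm⟩)
        ih hγ hlt hV hq hZ

/-- Properness, in the form needed for the preservation of omega one. -/
theorem proper {α : K} {p : Pre} (hp : V α p) (D : ℕ → Task) (hD : ∀ n, DT α (D n)) :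
    ∃ q, ∃ δ : W, V α q ∧ L α q p ∧ ∀ n, Dns α q fun s => ∃ v : Pre × W, v.2 < δ ∧ D n s v := by
  obtain ⟨N, h₁, h₂, h₃⟩ := exists_clo α p D
  have L0 : ∀ a b, L 0 a b := fun a b => L_iff.2 fun _ h => absurd h (not_lt_of_ge zero_le)
  obtain ⟨q, h₄, -, h₅, h₆⟩ := pil α h₁ 0 N.zero zero_le top (fun _ p' => p' = p) (V_top 0)
    (fun E hE hE' s hs _ => by
      obtain ⟨r, -, -, v, hv⟩ := hE'.2 top (V_top 0)
      obtain ⟨w, a, b, c⟩ := N.wit E hE top N.top ⟨v, hE'.1 _ _ _ hv (V_top 0) (L0 _ _)⟩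
      exact ⟨s, hs, L.rfl, w, a, b, hE'.1 _ _ _ c hs (L0 _ _)⟩)
    ⟨fun r p' h => h ▸ ⟨h₂, hp, L0 _ _⟩, fun _ _ _ h _ _ => h, fun _ _ _ _ h h' => h.trans h'.symm,
      fun s hs _ => ⟨s, hs, L.rfl, p, rfl⟩⟩
  exact ⟨q, N.δ, h₄, h₆ q p h₄ L.rfl rfl, fun n =>
    (h₅ _ (h₃ n) (hD n)).imp fun s _ _ ⟨v, _, a, b⟩ => ⟨v, a, b⟩⟩

end Pool.Agent.MP_5a4599_gt
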